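import Mathlib

/-!
# Sequence space toolkit for the fixed point modules

`L1` is the complex Banach space of absolutely summable functions on the integers.
* `L1.mk`, `L1.norm_eq`, `L1.summable_norm`: basic access;
* `bil w hw`: the weighted convolution `∑ k, w n k * x k * y (n - k)`, bounded by one if `‖w‖ ≤ 1`;
* `dg u v hu hv`: the operator `x ↦ (u n * x n + v n * x (-n))`;
* `matL M g hg hM`: matrix operators with row bounds `‖M n k‖ ≤ g n`, `g` summable;
* `functional c hc`: the functional `∑ k, c k * x k` with `‖c k‖ ≤ C`;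
* `continuousOn_L1`: coordinatewise continuity with a summable bound gives continuity;
* `LB`: bound and Lipschitz constant on a set, with a small calculus.
-/

namespace Pool.Agent.FB.Fix

open Set Filter Topology
open scoped ENNReal ComplexConjugate

noncomputable section

/-- The complex Banach space of absolutely summable functions on the integers. -/
abbrev L1 : Type := lp (fun _ : ℤ => ℂ) 1

theorem L1.summable_norm (x : L1) : Summable fun n => ‖x n‖ := by
  have h := (lp.memℓp x).summable (by norm_num)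
  simpa using h

theorem L1.norm_eq (x : L1) : ‖x‖ = ∑' n, ‖x n‖ := by
  have h := lp.norm_eq_tsum_rpow (p := 1) (by norm_num) x
  simpa using h

/-- Build an element of `L1` from an absolutely summable function. -/
def L1.mk (f : ℤ → ℂ) (hf : Summable fun n => ‖f n‖) : L1 :=
  ⟨f, memℓp_gen (by simpa using hf)⟩

@[simp] theorem L1.mk_apply (f : ℤ → ℂ) (hf : Summable fun n => ‖f n‖) (n : ℤ) :
    L1.mk f hf n = f n := rfl

theorem L1.norm_apply_le (x : L1) (n : ℤ) : ‖x n‖ ≤ ‖x‖ :=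
  lp.norm_apply_le_norm (by norm_num) x n

theorem L1.ext' {x y : L1} (h : ∀ n, x n = y n) : x = y := lp.ext (funext h)

theorem L1.norm_le_tsum (x : L1) (g : ℤ → ℝ) (hg : Summable g) (h : ∀ n, ‖x n‖ ≤ g n) :
    ‖x‖ ≤ ∑' n, g n := by
  rw [L1.norm_eq]
  exact Summable.tsum_le_tsum h x.summable_norm hg

theorem L1.add_apply' (x y : L1) (n : ℤ) : (x + y) n = x n + y n := rfl
theorem L1.sub_apply' (x y : L1) (n : ℤ) : (x - y) n = x n - y n := rfl
theorem L1.smul_apply' (c : ℂ) (x : L1) (n : ℤ) : (c • x) n = c * x n := rfl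
theorem L1.neg_apply' (x : L1) (n : ℤ) : (-x) n = -x n := rfl

/-! ### Convolution sums -/

theorem summable_prod (x y : L1) :
    Summable fun p : ℤ × ℤ => ‖x p.2‖ * ‖y (p.1 - p.2)‖ := by
  have h : Summable fun p : ℤ × ℤ => ‖x p.1‖ * ‖y p.2‖ :=
    x.summable_norm.mul_of_nonneg y.summable_norm (fun _ => norm_nonneg _) (fun _ => norm_nonneg _)
  let e : ℤ × ℤ ≃ ℤ × ℤ :=
    { toFun := fun p => (p.2, p.1 - p.2)
      invFun := fun p => (p.1 + p.2, p.1)
      left_inv := fun p => by ext <;> simp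
      right_inv := fun p => by ext <;> simp }
  exact (e.summable_iff (f := fun p : ℤ × ℤ => ‖x p.1‖ * ‖y p.2‖)).2 h

theorem summable_conv (x y : L1) (n : ℤ) : Summable fun k => ‖x k‖ * ‖y (n - k)‖ :=
  (summable_prod x y).prod_factor n

theorem summable_tsum_conv (x y : L1) : Summable fun n => ∑' k, ‖x k‖ * ‖y (n - k)‖ :=
  (summable_prod x y).prod

theorem tsum_tsum_conv (x y : L1) : ∑' n, ∑' k, ‖x k‖ * ‖y (n - k)‖ = ‖x‖ * ‖y‖ := by
  rw [← (summable_prod x y).tsum_prod (f := fun p : ℤ × ℤ => ‖x p.2‖ * ‖y (p.1 - p.2)‖)]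
  let e : ℤ × ℤ ≃ ℤ × ℤ :=
    { toFun := fun p => (p.2, p.1 - p.2)
      invFun := fun p => (p.1 + p.2, p.1)
      left_inv := fun p => by ext <;> simp
      right_inv := fun p => by ext <;> simp }
  have h : Summable fun p : ℤ × ℤ => ‖x p.1‖ * ‖y p.2‖ :=
    x.summable_norm.mul_of_nonneg y.summable_norm (fun _ => norm_nonneg _) (fun _ => norm_nonneg _)
  have h2 := e.tsum_eq (f := fun p : ℤ × ℤ => ‖x p.1‖ * ‖y p.2‖)
  have h3 : (∑' p : ℤ × ℤ, ‖x p.2‖ * ‖y (p.1 - p.2)‖) = ∑' p : ℤ × ℤ, ‖x p.1‖ * ‖y p.2‖ := h2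
  rw [h3, L1.norm_eq x, L1.norm_eq y, x.summable_norm.tsum_mul_tsum y.summable_norm h]

section bilinear

variable {w : ℤ → ℤ → ℂ}

theorem summable_bil (hw : ∀ n k, ‖w n k‖ ≤ 1) (x y : L1) (n : ℤ) :
    Summable fun k => w n k * x k * y (n - k) := by
  refine Summable.of_norm_bounded (summable_conv x y n) fun k => ?_
  rw [norm_mul, norm_mul]
  have h1 := hw n k
  have h2 : ‖w n k‖ * ‖x k‖ ≤ 1 * ‖x k‖ := mul_le_mul_of_nonneg_right h1 (norm_nonneg _)
  rw [one_mul] at h2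
  exact mul_le_mul_of_nonneg_right h2 (norm_nonneg _)

theorem norm_bil_apply_le (hw : ∀ n k, ‖w n k‖ ≤ 1) (x y : L1) (n : ℤ) :
    ‖∑' k, w n k * x k * y (n - k)‖ ≤ ∑' k, ‖x k‖ * ‖y (n - k)‖ := by
  refine tsum_of_norm_bounded (summable_conv x y n).hasSum fun k => ?_
  rw [norm_mul, norm_mul]
  have h2 : ‖w n k‖ * ‖x k‖ ≤ 1 * ‖x k‖ := mul_le_mul_of_nonneg_right (hw n k) (norm_nonneg _)
  rw [one_mul] at h2
  exact mul_le_mul_of_nonneg_right h2 (norm_nonneg _)

/-- The function underlying `bil`. -/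
def bilFun (w : ℤ → ℤ → ℂ) (hw : ∀ n k, ‖w n k‖ ≤ 1) (x y : L1) : L1 :=
  L1.mk (fun n => ∑' k, w n k * x k * y (n - k))
    (Summable.of_nonneg_of_le (fun _ => norm_nonneg _) (norm_bil_apply_le hw x y)
      (summable_tsum_conv x y))

theorem norm_bilFun_le (hw : ∀ n k, ‖w n k‖ ≤ 1) (x y : L1) : ‖bilFun w hw x y‖ ≤ ‖x‖ * ‖y‖ := by
  rw [← tsum_tsum_conv x y]
  exact L1.norm_le_tsum _ _ (summable_tsum_conv x y) (norm_bil_apply_le hw x y)

/-- The weighted convolution as a continuous bilinear map. -/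
def bil (w : ℤ → ℤ → ℂ) (hw : ∀ n k, ‖w n k‖ ≤ 1) : L1 →L[ℂ] L1 →L[ℂ] L1 :=
  LinearMap.mkContinuous₂
    (LinearMap.mk₂ ℂ (bilFun w hw)
      (fun x x' y => L1.ext' fun n => by
        show (∑' k, w n k * (x + x') k * y (n - k)) = _ + _
        rw [show (bilFun w hw x y) n = ∑' k, w n k * x k * y (n - k) from rfl,
          show (bilFun w hw x' y) n = ∑' k, w n k * x' k * y (n - k) from rfl,
          ← (summable_bil hw x y n).tsum_add (summable_bil hw x' y n)]
        refine tsum_congr fun k => ?_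
        rw [L1.add_apply']; ring)
      (fun c x y => L1.ext' fun n => by
        show (∑' k, w n k * (c • x) k * y (n - k)) = c * _
        rw [show (bilFun w hw x y) n = ∑' k, w n k * x k * y (n - k) from rfl, ← tsum_mul_left]
        refine tsum_congr fun k => ?_
        rw [L1.smul_apply']; ring)
      (fun x y y' => L1.ext' fun n => by
        show (∑' k, w n k * x k * (y + y') (n - k)) = _ + _
        rw [show (bilFun w hw x y) n = ∑' k, w n k * x k * y (n - k) from rfl,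
          show (bilFun w hw x y') n = ∑' k, w n k * x k * y' (n - k) from rfl,
          ← (summable_bil hw x y n).tsum_add (summable_bil hw x y' n)]
        refine tsum_congr fun k => ?_
        rw [L1.add_apply']; ring)
      (fun c x y => L1.ext' fun n => by
        show (∑' k, w n k * x k * (c • y) (n - k)) = c * _
        rw [show (bilFun w hw x y) n = ∑' k, w n k * x k * y (n - k) from rfl, ← tsum_mul_left]
        refine tsum_congr fun k => ?_
        rw [L1.smul_apply']; ring))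
    1 (fun x y => by
      rw [one_mul]
      exact norm_bilFun_le hw x y)

theorem bil_apply (hw : ∀ n k, ‖w n k‖ ≤ 1) (x y : L1) (n : ℤ) :
    bil w hw x y n = ∑' k, w n k * x k * y (n - k) := rfl

theorem norm_bil_le (hw : ∀ n k, ‖w n k‖ ≤ 1) (x y : L1) : ‖bil w hw x y‖ ≤ ‖x‖ * ‖y‖ :=
  norm_bilFun_le hw x y

end bilinear

/-! ### Diagonal operators with reflection -/

section diagonal

variable {u v : ℤ → ℂ} {c c' : ℝ}

theorem summable_neg (x : L1) : Summable fun n : ℤ => ‖x (-n)‖ :=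
  ((Equiv.neg ℤ).summable_iff (f := fun n => ‖x n‖)).2 x.summable_norm

theorem tsum_neg_norm (x : L1) : ∑' n : ℤ, ‖x (-n)‖ = ‖x‖ := by
  rw [L1.norm_eq]
  exact (Equiv.neg ℤ).tsum_eq (f := fun n => ‖x n‖)

theorem dg_bound (hu : ∀ n, ‖u n‖ ≤ c) (hv : ∀ n, ‖v n‖ ≤ c') (x : L1) (n : ℤ) :
    ‖u n * x n + v n * x (-n)‖ ≤ c * ‖x n‖ + c' * ‖x (-n)‖ := by
  refine (norm_add_le _ _).trans ?_
  rw [norm_mul, norm_mul]
  exact add_le_add (mul_le_mul_of_nonneg_right (hu n) (norm_nonneg _))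
    (mul_le_mul_of_nonneg_right (hv n) (norm_nonneg _))

theorem dg_summable (x : L1) (c c' : ℝ) : Summable fun n => c * ‖x n‖ + c' * ‖x (-n)‖ :=
  (x.summable_norm.mul_left c).add ((summable_neg x).mul_left c')

/-- The operator `x ↦ (u n * x n + v n * x (-n))`. -/
def dg (u v : ℤ → ℂ) (hu : ∀ n, ‖u n‖ ≤ c) (hv : ∀ n, ‖v n‖ ≤ c') : L1 →L[ℂ] L1 :=
  LinearMap.mkContinuous
    { toFun := fun x => L1.mk (fun n => u n * x n + v n * x (-n))
        (Summable.of_nonneg_of_le (fun _ => norm_nonneg _) (dg_bound hu hv x) (dg_summable x c c'))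
      map_add' := fun x y => L1.ext' fun n => by
        show u n * (x + y) n + v n * (x + y) (-n) = (u n * x n + v n * x (-n)) + (u n * y n + v n * y (-n))
        rw [L1.add_apply', L1.add_apply']; ring
      map_smul' := fun a x => L1.ext' fun n => by
        show u n * (a • x) n + v n * (a • x) (-n) = a * (u n * x n + v n * x (-n))
        rw [L1.smul_apply', L1.smul_apply']; ring }
    (c + c') (fun x => by
      refine (L1.norm_le_tsum _ _ (dg_summable x c c') (dg_bound hu hv x)).trans (le_of_eq ?_)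
      rw [(x.summable_norm.mul_left c).tsum_add ((summable_neg x).mul_left c'), tsum_mul_left,
        tsum_mul_left, tsum_neg_norm, ← L1.norm_eq]
      ring)

theorem dg_apply (hu : ∀ n, ‖u n‖ ≤ c) (hv : ∀ n, ‖v n‖ ≤ c') (x : L1) (n : ℤ) :
    dg u v hu hv x n = u n * x n + v n * x (-n) := rfl

theorem norm_dg_le (hu : ∀ n, ‖u n‖ ≤ c) (hv : ∀ n, ‖v n‖ ≤ c') (x : L1) :
    ‖dg u v hu hv x‖ ≤ (c + c') * ‖x‖ := by
  have hc : 0 ≤ c := (norm_nonneg _).trans (hu 0)
  have hc' : 0 ≤ c' := (norm_nonneg _).trans (hv 0)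
  refine (ContinuousLinearMap.le_opNorm _ _).trans (mul_le_mul_of_nonneg_right ?_ (norm_nonneg _))
  exact LinearMap.mkContinuous_norm_le _ (by positivity) _

end diagonal

/-! ### Matrix operators and functionals -/

section matrix

variable {M : ℤ → ℤ → ℂ} {g : ℤ → ℝ}

theorem summable_functional {c : ℤ → ℂ} {C : ℝ} (hc : ∀ k, ‖c k‖ ≤ C) (x : L1) :
    Summable fun k => c k * x k := by
  refine Summable.of_norm_bounded (x.summable_norm.mul_left C) fun k => ?_
  rw [norm_mul]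
  exact mul_le_mul_of_nonneg_right (hc k) (norm_nonneg _)

theorem norm_functional_le {c : ℤ → ℂ} {C : ℝ} (hc : ∀ k, ‖c k‖ ≤ C) (x : L1) :
    ‖∑' k, c k * x k‖ ≤ C * ‖x‖ := by
  rw [L1.norm_eq, ← tsum_mul_left]
  refine tsum_of_norm_bounded (x.summable_norm.mul_left C).hasSum fun k => ?_
  rw [norm_mul]
  exact mul_le_mul_of_nonneg_right (hc k) (norm_nonneg _)

/-- The functional `x ↦ ∑ k, c k * x k` for a bounded coefficient function. -/
def functional (c : ℤ → ℂ) {C : ℝ} (hc : ∀ k, ‖c k‖ ≤ C) : L1 →L[ℂ] ℂ :=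
  LinearMap.mkContinuous
    { toFun := fun x => ∑' k, c k * x k
      map_add' := fun x y => by
        rw [← (summable_functional hc x).tsum_add (summable_functional hc y)]
        refine tsum_congr fun k => ?_
        rw [L1.add_apply']; ring
      map_smul' := fun a x => by
        rw [RingHom.id_apply, smul_eq_mul, ← tsum_mul_left]
        refine tsum_congr fun k => ?_
        rw [L1.smul_apply']; ring }
    C (norm_functional_le hc)

theorem functional_apply {c : ℤ → ℂ} {C : ℝ} (hc : ∀ k, ‖c k‖ ≤ C) (x : L1) :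
    functional c hc x = ∑' k, c k * x k := rfl

theorem norm_functional_apply_le {c : ℤ → ℂ} {C : ℝ} (hc : ∀ k, ‖c k‖ ≤ C) (x : L1) :
    ‖functional c hc x‖ ≤ C * ‖x‖ := norm_functional_le hc x

theorem summable_mat (hM : ∀ n k, ‖M n k‖ ≤ g n) (x : L1) (n : ℤ) :
    Summable fun k => M n k * x k := summable_functional (hM n) x

theorem norm_mat_apply_le (hM : ∀ n k, ‖M n k‖ ≤ g n) (x : L1) (n : ℤ) :
    ‖∑' k, M n k * x k‖ ≤ g n * ‖x‖ := norm_functional_le (hM n) x

/-- Matrix operators with summable row bounds. -/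
def matL (M : ℤ → ℤ → ℂ) (g : ℤ → ℝ) (hg : Summable g) (hM : ∀ n k, ‖M n k‖ ≤ g n) :
    L1 →L[ℂ] L1 :=
  LinearMap.mkContinuous
    { toFun := fun x => L1.mk (fun n => ∑' k, M n k * x k)
        (Summable.of_nonneg_of_le (fun _ => norm_nonneg _) (norm_mat_apply_le hM x)
          (hg.mul_right ‖x‖))
      map_add' := fun x y => L1.ext' fun n => by
        show (∑' k, M n k * (x + y) k) = (∑' k, M n k * x k) + (∑' k, M n k * y k)
        rw [← (summable_mat hM x n).tsum_add (summable_mat hM y n)]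
        refine tsum_congr fun k => ?_
        rw [L1.add_apply']; ring
      map_smul' := fun a x => L1.ext' fun n => by
        show (∑' k, M n k * (a • x) k) = a * (∑' k, M n k * x k)
        rw [← tsum_mul_left]
        refine tsum_congr fun k => ?_
        rw [L1.smul_apply']; ring }
    (∑' n, g n) (fun x => by
      refine (L1.norm_le_tsum _ _ (hg.mul_right ‖x‖) (norm_mat_apply_le hM x)).trans (le_of_eq ?_)
      rw [tsum_mul_right])

theorem matL_apply (hg : Summable g) (hM : ∀ n k, ‖M n k‖ ≤ g n) (x : L1) (n : ℤ) :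
    matL M g hg hM x n = ∑' k, M n k * x k := rfl

theorem norm_matL_le (hg : Summable g) (hM : ∀ n k, ‖M n k‖ ≤ g n) (x : L1) :
    ‖matL M g hg hM x‖ ≤ (∑' n, g n) * ‖x‖ := by
  have h := L1.norm_le_tsum (matL M g hg hM x) _ (hg.mul_right ‖x‖) (norm_mat_apply_le hM x)
  rwa [tsum_mul_right] at h

end matrix

/-! ### Continuity in a parameter -/

theorem continuousOn_L1 {s : Set ℝ} (F : ℝ → L1) (g : ℤ → ℝ) (hg : Summable g)
    (hF : ∀ n, ContinuousOn (fun t => F t n) s) (hb : ∀ n, ∀ t ∈ s, ‖F t n‖ ≤ g n) :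
    ContinuousOn F s := by
  intro t₀ ht₀
  have h1 : ContinuousOn (fun t => ∑' n, ‖F t n - F t₀ n‖) s := by
    refine continuousOn_tsum (u := fun n => g n + g n) (fun n => ?_) (hg.add hg) (fun n t ht => ?_)
    · exact ((hF n).sub continuousOn_const).norm
    · rw [norm_norm]
      exact (norm_sub_le _ _).trans (add_le_add (hb n t ht) (hb n t₀ ht₀))
  have h2 : Tendsto (fun t => ‖F t - F t₀‖) (𝓝[s] t₀) (𝓝 0) := by
    have h3 := h1 t₀ ht₀
    have h4 : (∑' n, ‖F t₀ n - F t₀ n‖) = 0 := by simp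
    rw [ContinuousWithinAt, h4] at h3
    refine h3.congr fun t => ?_
    rw [L1.norm_eq]; rfl
  exact tendsto_iff_norm_sub_tendsto_zero.2 h2

/-! ### Bounds and Lipschitz constants on a set -/

/-- `F` is bounded by `K` and `L`-Lipschitz on `s`. -/
structure LB {X E : Type*} [NormedAddCommGroup X] [NormedAddCommGroup E]
    (s : Set X) (F : X → E) (K L : ℝ) : Prop where
  bd : ∀ b ∈ s, ‖F b‖ ≤ K
  lip : ∀ b ∈ s, ∀ b' ∈ s, ‖F b - F b'‖ ≤ L * ‖b - b'‖

namespace LB

variable {X E F' G : Type*} [NormedAddCommGroup X] [NormedAddCommGroup E] [NormedAddCommGroup F']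
  [NormedAddCommGroup G] {s : Set X} {F F₁ F₂ : X → E} {K L K₁ L₁ K₂ L₂ : ℝ}

theorem mono (h : LB s F K L) {K' L' : ℝ} (hK : K ≤ K') (hL : L ≤ L') : LB s F K' L' :=
  ⟨fun b hb => (h.bd b hb).trans hK, fun b hb b' hb' => (h.lip b hb b' hb').trans
    (mul_le_mul_of_nonneg_right hL (norm_nonneg _))⟩

theorem add (h₁ : LB s F₁ K₁ L₁) (h₂ : LB s F₂ K₂ L₂) :
    LB s (fun b => F₁ b + F₂ b) (K₁ + K₂) (L₁ + L₂) :=
  ⟨fun b hb => (norm_add_le _ _).trans (add_le_add (h₁.bd b hb) (h₂.bd b hb)),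
   fun b hb b' hb' => by
    have e : F₁ b + F₂ b - (F₁ b' + F₂ b') = (F₁ b - F₁ b') + (F₂ b - F₂ b') := by abel
    rw [e, add_mul]
    exact (norm_add_le _ _).trans (add_le_add (h₁.lip b hb b' hb') (h₂.lip b hb b' hb'))⟩

theorem neg (h₁ : LB s F₁ K₁ L₁) : LB s (fun b => -F₁ b) K₁ L₁ :=
  ⟨fun b hb => by rw [norm_neg]; exact h₁.bd b hb,
   fun b hb b' hb' => by
    have e : -F₁ b - -F₁ b' = -(F₁ b - F₁ b') := by abel
    rw [e, norm_neg]
    exact h₁.lip b hb b' hb'⟩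

theorem sub (h₁ : LB s F₁ K₁ L₁) (h₂ : LB s F₂ K₂ L₂) :
    LB s (fun b => F₁ b - F₂ b) (K₁ + K₂) (L₁ + L₂) := by
  have h := h₁.add h₂.neg
  simpa [sub_eq_add_neg] using h

/-- Composition with an additive map bounded by `c`. -/
theorem map (h : LB s F K L) (T : E → F') {c : ℝ} (hc : 0 ≤ c)
    (hT : ∀ x, ‖T x‖ ≤ c * ‖x‖) (hsub : ∀ x y, T x - T y = T (x - y)) :
    LB s (fun b => T (F b)) (c * K) (c * L) :=
  ⟨fun b hb => (hT _).trans (mul_le_mul_of_nonneg_left (h.bd b hb) hc),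
   fun b hb b' hb' => by
    rw [hsub, mul_assoc]
    exact (hT _).trans (mul_le_mul_of_nonneg_left (h.lip b hb b' hb') hc)⟩

/-- Composition with a bounded biadditive map. -/
theorem map₂ {F₂ : X → F'} (h₁ : LB s F₁ K₁ L₁) (h₂ : LB s F₂ K₂ L₂) (B : E → F' → G)
    (hB : ∀ x y, ‖B x y‖ ≤ ‖x‖ * ‖y‖)
    (hs₁ : ∀ x x' y, B x y - B x' y = B (x - x') y)
    (hs₂ : ∀ x y y', B x y - B x y' = B x (y - y'))
    (hK₁ : 0 ≤ K₁) :
    LB s (fun b => B (F₁ b) (F₂ b)) (K₁ * K₂) (K₁ * L₂ + L₁ * K₂) :=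
  ⟨fun b hb => (hB _ _).trans (mul_le_mul (h₁.bd b hb) (h₂.bd b hb) (norm_nonneg _) hK₁),
   fun b hb b' hb' => by
    have e : B (F₁ b) (F₂ b) - B (F₁ b') (F₂ b')
        = B (F₁ b) (F₂ b - F₂ b') + B (F₁ b - F₁ b') (F₂ b') := by
      rw [← hs₁, ← hs₂]; abel
    rw [e]
    refine (norm_add_le _ _).trans ?_
    have h3 : ‖B (F₁ b) (F₂ b - F₂ b')‖ ≤ K₁ * (L₂ * ‖b - b'‖) :=
      (hB _ _).trans (mul_le_mul (h₁.bd b hb) (h₂.lip b hb b' hb') (norm_nonneg _) hK₁)
    have h4 : ‖B (F₁ b - F₁ b') (F₂ b')‖ ≤ (L₁ * ‖b - b'‖) * K₂ :=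
      (hB _ _).trans (mul_le_mul (h₁.lip b hb b' hb') (h₂.bd b' hb') (norm_nonneg _)
        ((norm_nonneg _).trans (h₁.lip b hb b' hb')))
    calc ‖B (F₁ b) (F₂ b - F₂ b')‖ + ‖B (F₁ b - F₁ b') (F₂ b')‖
        ≤ K₁ * (L₂ * ‖b - b'‖) + (L₁ * ‖b - b'‖) * K₂ := add_le_add h3 h4
      _ = (K₁ * L₂ + L₁ * K₂) * ‖b - b'‖ := by ring⟩

theorem const (x : E) (h : ‖x‖ ≤ K) : LB s (fun _ : X => x) K 0 :=
  ⟨fun _ _ => h, fun _ _ _ _ => by simp⟩

theorem id {R : ℝ} (h : ∀ b ∈ s, ‖b‖ ≤ R) : LB s (fun b : X => b) R 1 :=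
  ⟨h, fun b _ b' _ => by rw [one_mul]⟩

end LB

end

end Pool.Agent.FB.Fix
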