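import Pool.Agent.FB.Fix.Ops

/-!
# The abstract fixed point equation and its contraction estimate
-/

namespace Pool.Agent.FB.Fix

open Set Filter Topology
open scoped ENNReal ComplexConjugate

noncomputable section

/-- The data of the fixed point equation: `a(b) = A b - β(b) U`, `β(b) = ν (1 - l b)`. -/
structure Dat where
  A : L1 →L[ℂ] L1
  U : L1
  l : L1 →L[ℂ] ℂ
  ν : ℂ

namespace Dat

/-- The logarithmic coefficient. -/
def β (D : Dat) (b : L1) : ℂ := D.ν * (1 - D.l b)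

/-- The regular coefficients. -/
def a (D : Dat) (b : L1) : L1 := D.A b - D.β b • D.U

/-- Sum `a + b`. -/
def φ (D : Dat) (b : L1) : L1 := D.a b + b

/-- Difference `a - b`. -/
def d (D : Dat) (b : L1) : L1 := D.a b - b

/-- The part of the boundary equation outside the range of `PL`. -/
def N (D : Dat) (b : L1) : L1 :=
  D.β b • Linv (D.φ b - PL (D.φ b)) + (TL (PL (D.d b)) (D.φ b) - TL (D.d b) (PL (D.φ b)))

/-- The quadratic part of the normalisation equation. -/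
def Q (D : Dat) (b : L1) : L1 := (1 / 2 : ℂ) • PL0 (mulL (D.φ b) (Dm (D.φ b)))

/-- The fixed point map. -/
def Psi (D : Dat) (b : L1) : L1 := D.a b - (2 : ℂ) • PL (D.a b) - D.N b - D.Q b

/-- Smallness assumptions. -/
structure Small (D : Dat) (δ ν₀ : ℝ) : Prop where
  A : ∀ x, ‖D.A x‖ ≤ δ * ‖x‖
  U : ‖D.U‖ ≤ 2
  l : ∀ x, ‖D.l x‖ ≤ ‖x‖
  ν : ‖D.ν‖ ≤ ν₀
  δpos : 0 ≤ δ
  δle : δ ≤ 1 / 100
  ν₀le : ν₀ ≤ 1 / 2500

variable {D : Dat} {δ ν₀ : ℝ} {s : Set L1}

theorem lb_β (h : D.Small δ ν₀) (hs : ∀ b ∈ s, ‖b‖ ≤ 20 * ν₀) : LB s D.β (2 * ν₀) ν₀ := by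
  have hν : 0 ≤ ν₀ := (norm_nonneg _).trans h.ν
  refine ⟨fun b hb => ?_, fun b hb b' hb' => ?_⟩
  · unfold Dat.β
    rw [norm_mul]
    have h1 : ‖1 - D.l b‖ ≤ 1 + ‖b‖ :=
      (norm_sub_le _ _).trans (by rw [norm_one]; exact add_le_add le_rfl (h.l b))
    have h2 : ‖1 - D.l b‖ ≤ 2 := by
      have h3 := hs b hb
      have h4 := h.ν₀le
      linarith
    calc ‖D.ν‖ * ‖1 - D.l b‖ ≤ ν₀ * 2 := mul_le_mul h.ν h2 (norm_nonneg _) hν
      _ = 2 * ν₀ := by ring
  · unfold Dat.β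
    have e : D.ν * (1 - D.l b) - D.ν * (1 - D.l b') = D.ν * (-D.l (b - b')) := by
      rw [map_sub]; ring
    rw [e, norm_mul, norm_neg]
    exact mul_le_mul h.ν (h.l _) (norm_nonneg _) hν

theorem lb_a (h : D.Small δ ν₀) (hs : ∀ b ∈ s, ‖b‖ ≤ 20 * ν₀) :
    LB s D.a (δ * (20 * ν₀) + 4 * ν₀) (δ + 2 * ν₀) := by
  have hν : 0 ≤ ν₀ := (norm_nonneg _).trans h.ν
  have h1 : LB s (fun b => D.A b) (δ * (20 * ν₀)) (δ * 1) :=
    (LB.id hs).map D.A h.δpos h.A (fun x y => (map_sub D.A x y).symm)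
  have h2 := (lb_β h hs).map (fun c : ℂ => c • D.U) (c := 2) (by norm_num)
    (fun x => by
      show ‖x • D.U‖ ≤ _
      rw [norm_smul, mul_comm]
      exact mul_le_mul_of_nonneg_right h.U (norm_nonneg _))
    (fun x y => (sub_smul x y D.U).symm)
  exact (h1.sub h2).mono (by linarith) (by linarith)

theorem lb_φ (h : D.Small δ ν₀) (hs : ∀ b ∈ s, ‖b‖ ≤ 20 * ν₀) : LB s D.φ (25 * ν₀) (11 / 10) := by
  have hν : 0 ≤ ν₀ := (norm_nonneg _).trans h.ν
  have h3 := h.δle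
  have h4 := h.ν₀le
  exact ((lb_a h hs).add (LB.id hs)).mono (by nlinarith) (by linarith)

theorem lb_d (h : D.Small δ ν₀) (hs : ∀ b ∈ s, ‖b‖ ≤ 20 * ν₀) : LB s D.d (25 * ν₀) (11 / 10) := by
  have hν : 0 ≤ ν₀ := (norm_nonneg _).trans h.ν
  have h3 := h.δle
  have h4 := h.ν₀le
  exact ((lb_a h hs).sub (LB.id hs)).mono (by nlinarith) (by linarith)

theorem lb_PL {F : L1 → L1} {K L : ℝ} (h : LB s F K L) : LB s (fun b => PL (F b)) K L := by
  have := h.map PL (c := 1) (by norm_num) (fun x => by rw [one_mul]; exact norm_PL_le x)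
    (fun x y => (map_sub PL x y).symm)
  simpa only [one_mul] using this

theorem lb_TL {F G : L1 → L1} {K L K' L' : ℝ} (h : LB s F K L) (h' : LB s G K' L') (hK : 0 ≤ K) :
    LB s (fun b => TL (F b) (G b)) (K * K') (K * L' + L * K') :=
  h.map₂ h' (fun x y => TL x y) norm_TL_le
    (fun x x' y => by rw [map_sub]; rfl)
    (fun x y y' => by rw [map_sub]) hK

theorem lb_mulL {F G : L1 → L1} {K L K' L' : ℝ} (h : LB s F K L) (h' : LB s G K' L') (hK : 0 ≤ K) :
    LB s (fun b => mulL (F b) (G b)) (K * K') (K * L' + L * K') :=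
  h.map₂ h' (fun x y => mulL x y) norm_mulL_le
    (fun x x' y => by rw [map_sub]; rfl)
    (fun x y y' => by rw [map_sub]) hK

theorem lb_N (h : D.Small δ ν₀) (hs : ∀ b ∈ s, ‖b‖ ≤ 20 * ν₀) :
    LB s D.N (1350 * ν₀ ^ 2) (200 * ν₀) := by
  have hν : 0 ≤ ν₀ := (norm_nonneg _).trans h.ν
  have hφ := lb_φ h hs
  have hd := lb_d h hs
  have h1 : LB s (fun b => Linv (D.φ b - PL (D.φ b))) (50 * ν₀) (22 / 10) := by
    have h0 := (hφ.sub (lb_PL hφ)).map Linv (c := 1) (by norm_num)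
      (fun x => by rw [one_mul]; exact norm_Linv_le x) (fun x y => (map_sub Linv x y).symm)
    exact h0.mono (by linarith) (by linarith)
  have h2 : LB s (fun b => D.β b • Linv (D.φ b - PL (D.φ b))) (2 * ν₀ * (50 * ν₀))
      (2 * ν₀ * (22 / 10) + ν₀ * (50 * ν₀)) :=
    (lb_β h hs).map₂ h1 (fun c x => c • x) (fun x y => (norm_smul x y).le)
      (fun x x' y => (sub_smul x x' y).symm) (fun x y y' => (smul_sub x y y').symm) (by linarith)
  have h3 := lb_TL (lb_PL hd) hφ (by linarith)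
  have h4 := lb_TL hd (lb_PL hφ) (by linarith)
  have h5 := h.ν₀le
  exact (h2.add (h3.sub h4)).mono (by nlinarith) (by nlinarith)

theorem lb_Q (h : D.Small δ ν₀) (hs : ∀ b ∈ s, ‖b‖ ≤ 20 * ν₀) :
    LB s D.Q (313 * ν₀ ^ 2) (28 * ν₀) := by
  have hν : 0 ≤ ν₀ := (norm_nonneg _).trans h.ν
  have hφ := lb_φ h hs
  have h1 : LB s (fun b => Dm (D.φ b)) (1 * (25 * ν₀)) (1 * (11 / 10)) :=
    hφ.map Dm (by norm_num) (fun x => by rw [one_mul]; exact norm_Dm_le x)
      (fun x y => (map_sub Dm x y).symm)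
  have h2 := lb_mulL hφ h1 (by linarith)
  have h3 := h2.map PL0 (c := 1) (by norm_num) (fun x => by rw [one_mul]; exact norm_PL0_le x)
    (fun x y => (map_sub PL0 x y).symm)
  have h4 := h3.map (fun x => (1 / 2 : ℂ) • x) (c := 1 / 2) (by norm_num)
    (fun x => by rw [norm_smul]; norm_num) (fun x y => (smul_sub _ x y).symm)
  exact h4.mono (by nlinarith) (by nlinarith)

theorem lb_Psi (h : D.Small δ ν₀) (hs : ∀ b ∈ s, ‖b‖ ≤ 20 * ν₀) :
    LB s D.Psi (20 * ν₀) (1 / 2) := by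
  have hν : 0 ≤ ν₀ := (norm_nonneg _).trans h.ν
  have ha := lb_a h hs
  have h1 := (lb_PL ha).map (fun x => (2 : ℂ) • x) (c := 2) (by norm_num)
    (fun x => by rw [norm_smul]; norm_num) (fun x y => (smul_sub _ x y).symm)
  have h2 := ((ha.sub h1).sub (lb_N h hs)).sub (lb_Q h hs)
  have h3 := h.δle
  have h5 := h.ν₀le
  have h6 := h.δpos
  exact h2.mono (by nlinarith) (by nlinarith)

/-! ### Symmetry -/

/-- The data are compatible with the symmetry `IsH`. -/
structure Sym (D : Dat) : Prop where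
  A : ∀ x : L1, IsH x → IsH (D.A x)
  U : IsH D.U
  l : ∀ x : L1, IsH x → conj (D.l x) = D.l x
  ν : conj D.ν = D.ν

theorem Sym.β (h : D.Sym) {b : L1} (hb : IsH b) : conj (D.β b) = D.β b := by
  unfold Dat.β
  rw [map_mul, map_sub, map_one, h.l b hb, h.ν]

theorem Sym.a (h : D.Sym) {b : L1} (hb : IsH b) : IsH (D.a b) :=
  (h.A b hb).sub (h.U.smul (h.β hb))

theorem Sym.φ (h : D.Sym) {b : L1} (hb : IsH b) : IsH (D.φ b) := (h.a hb).add hb

theorem Sym.d (h : D.Sym) {b : L1} (hb : IsH b) : IsH (D.d b) := (h.a hb).sub hb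

theorem Sym.N (h : D.Sym) {b : L1} (hb : IsH b) : IsH (D.N b) := by
  have h1 := h.φ hb
  have h2 := h.d hb
  exact (((h1.sub h1.PL).Linv).smul (h.β hb)).add ((h2.PL.TL h1).sub (h2.TL h1.PL))

theorem Sym.Q (h : D.Sym) {b : L1} (hb : IsH b) : IsH (D.Q b) :=
  (((h.φ hb).mulL (h.φ hb).Dm).PL0).smul conj_half

theorem Sym.Psi (h : D.Sym) {b : L1} (hb : IsH b) : IsH (D.Psi b) := by
  have h1 := h.a hb
  exact ((h1.sub (h1.PL.smul (by simp [Complex.conj_ofNat]))).sub (h.N hb)).sub (h.Q hb)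

/-! ### The fixed point -/

/-- The closed set on which the contraction is used. -/
def ball (R : ℝ) : Set L1 := {b | ‖b‖ ≤ R ∧ IsH b}

theorem isClosed_ball (R : ℝ) : IsClosed (ball R) := by
  have h1 : IsClosed {b : L1 | ‖b‖ ≤ R} := isClosed_le continuous_norm continuous_const
  have h2 : IsClosed {b : L1 | IsH b} := by
    have : {b : L1 | IsH b} = ⋂ n : ℤ, {b : L1 | b (-n) = (-1) ^ n * conj (b n)} := by
      ext b; simp [IsH]
    rw [this]
    refine isClosed_iInter fun n => ?_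
    have hc : ∀ m : ℤ, Continuous fun b : L1 => b m := fun m => (lp.evalCLM ℂ (fun _ : ℤ => ℂ) 1 m).continuous
    exact isClosed_eq (hc _) (continuous_const.mul (Complex.continuous_conj.comp (hc _)))
  exact h1.inter h2

theorem zero_mem_ball {R : ℝ} (hR : 0 ≤ R) : (0 : L1) ∈ ball R :=
  ⟨by simpa using hR, fun n => by simp⟩

theorem exists_fixed (h : D.Small δ ν₀) (hD : D.Sym) :
    ∃ b ∈ ball (20 * ν₀), D.Psi b = b := by
  have hν : 0 ≤ ν₀ := (norm_nonneg _).trans h.ν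
  have hlb := lb_Psi h (s := ball (20 * ν₀)) (fun b hb => hb.1)
  have hmaps : MapsTo D.Psi (ball (20 * ν₀)) (ball (20 * ν₀)) :=
    fun b hb => ⟨hlb.bd b hb, hD.Psi hb.2⟩
  have hcontr : ContractingWith (1 / 2) (hmaps.restrict D.Psi _ _) := by
    refine ⟨by rw [div_lt_one (by norm_num)]; norm_num, ?_⟩
    refine LipschitzWith.of_dist_le_mul fun x y => ?_
    rw [Subtype.dist_eq, Subtype.dist_eq, dist_eq_norm, dist_eq_norm]
    have := hlb.lip x.1 x.2 y.1 y.2
    simpa using this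
  obtain ⟨y, hy, hfix, -, -⟩ := ContractingWith.exists_fixedPoint' (f := D.Psi)
    (isClosed_ball _).isComplete hmaps hcontr (x := 0) (zero_mem_ball (by linarith))
    (edist_ne_top _ _)
  exact ⟨y, hy, hfix⟩

/-- Continuity of the fixed point in a parameter. -/
theorem continuousOn_fixed {I : Set ℝ} (Dt : ℝ → Dat) (bt : ℝ → L1)
    (h : ∀ t ∈ I, (Dt t).Small δ ν₀) (hb : ∀ t ∈ I, bt t ∈ ball (20 * ν₀))
    (hfix : ∀ t ∈ I, (Dt t).Psi (bt t) = bt t)
    (hc : ∀ b : L1, ContinuousOn (fun t => (Dt t).Psi b) I) : ContinuousOn bt I := by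
  intro t₀ ht₀
  have h1 : Tendsto (fun t => 2 * ‖(Dt t).Psi (bt t₀) - (Dt t₀).Psi (bt t₀)‖) (𝓝[I] t₀) (𝓝 0) := by
    have h2 : ContinuousWithinAt (fun t => 2 * ‖(Dt t).Psi (bt t₀) - (Dt t₀).Psi (bt t₀)‖) I t₀ :=
      continuousWithinAt_const.mul (((hc (bt t₀)) t₀ ht₀).sub continuousWithinAt_const).norm
    have h3 := h2.tendsto
    simpa using h3
  refine tendsto_iff_norm_sub_tendsto_zero.2 ?_
  refine squeeze_zero' (Eventually.of_forall fun _ => norm_nonneg _) ?_ h1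
  filter_upwards [self_mem_nhdsWithin] with t ht
  have hlb := (lb_Psi (h t ht) (s := ball (20 * ν₀)) (fun b hb => hb.1)).lip _ (hb t ht) _
    (hb t₀ ht₀)
  have e : bt t - bt t₀ = ((Dt t).Psi (bt t) - (Dt t).Psi (bt t₀)) +
      ((Dt t).Psi (bt t₀) - (Dt t₀).Psi (bt t₀)) := by
    rw [hfix t ht, hfix t₀ ht₀]; abel
  have h3 : ‖bt t - bt t₀‖ ≤ 1 / 2 * ‖bt t - bt t₀‖ +
      ‖(Dt t).Psi (bt t₀) - (Dt t₀).Psi (bt t₀)‖ := by
    calc ‖bt t - bt t₀‖ = ‖((Dt t).Psi (bt t) - (Dt t).Psi (bt t₀)) +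
        ((Dt t).Psi (bt t₀) - (Dt t₀).Psi (bt t₀))‖ := by rw [← e]
      _ ≤ _ := (norm_add_le _ _).trans (add_le_add hlb le_rfl)
  linarith

/-- Continuity of the map in the parameter, from continuity of the data. -/
theorem continuousOn_Psi {I : Set ℝ} (Dt : ℝ → Dat) (b : L1)
    (hA : ContinuousOn (fun t => (Dt t).A b) I) (hU : ContinuousOn (fun t => (Dt t).U) I)
    (hl : ContinuousOn (fun t => (Dt t).l b) I) (hν : ContinuousOn (fun t => (Dt t).ν) I) :
    ContinuousOn (fun t => (Dt t).Psi b) I := by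
  have hβ : ContinuousOn (fun t => (Dt t).β b) I := hν.mul (continuousOn_const.sub hl)
  have ha : ContinuousOn (fun t => (Dt t).a b) I := hA.sub (hβ.smul hU)
  have hφ : ContinuousOn (fun t => (Dt t).φ b) I := ha.add continuousOn_const
  have hd : ContinuousOn (fun t => (Dt t).d b) I := ha.sub continuousOn_const
  have hPφ := PL.continuous.comp_continuousOn hφ
  have hPd := PL.continuous.comp_continuousOn hd
  have hN : ContinuousOn (fun t => (Dt t).N b) I :=
    (hβ.smul (Linv.continuous.comp_continuousOn (hφ.sub hPφ))).add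
      (((TL.continuous.comp_continuousOn hPd).clm_apply hφ).sub
        ((TL.continuous.comp_continuousOn hd).clm_apply hPφ))
  have hQ : ContinuousOn (fun t => (Dt t).Q b) I :=
    (PL0.continuous.comp_continuousOn ((mulL.continuous.comp_continuousOn hφ).clm_apply
      (Dm.continuous.comp_continuousOn hφ))).const_smul (1 / 2 : ℂ)
  exact ((ha.sub ((PL.continuous.comp_continuousOn ha).const_smul (2 : ℂ))).sub hN).sub hQ

end Dat

end

end Pool.Agent.FB.Fix
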