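import Pool.Agent.FB.Fix.Eqs

/-!
# The concrete data of the fixed point equation for given lattice constants
-/

namespace Pool.Agent.FB.Fix

open Set Filter Topology
open scoped ENNReal ComplexConjugate Real

noncomputable section

/-- Smallness hypotheses on the lattice constants and on the radius. -/
structure Hyp (κ : ℂ) (E : ℕ → ℂ) (γ δ t : ℝ) : Prop where
  kpos : 0 < ‖κ‖
  kle : ‖κ‖ ≤ δ
  δle : δ ≤ 1 / 100000
  e1 : ‖E 1 * κ - 2 * π * Complex.I‖ ≤ δ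
  ej : ∀ j : ℕ, 2 ≤ j → ‖κ‖ * ‖E j‖ ≤ δ * (5 / 4) ^ j
  gam : |γ * ‖κ‖ ^ 2 + 2 * π| ≤ δ
  tge : ‖κ‖ / 10 ≤ t
  tle : t ≤ ‖κ‖ / 2

namespace Hyp

variable {κ : ℂ} {E : ℕ → ℂ} {γ δ t : ℝ}

theorem tpos (h : Hyp κ E γ δ t) : 0 < t := by
  have := h.kpos; have := h.tge; linarith

theorem δpos (h : Hyp κ E γ δ t) : 0 < δ := h.kpos.trans_le h.kle

theorem ksmall (h : Hyp κ E γ δ t) : ‖κ‖ ≤ 1 / 100000 := h.kle.trans h.δle

theorem E1_le (h : Hyp κ E γ δ t) : ‖κ‖ * ‖E 1‖ ≤ 2 * π + δ := by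
  have h1 : ‖E 1 * κ‖ ≤ ‖E 1 * κ - 2 * π * Complex.I‖ + ‖(2 * π * Complex.I : ℂ)‖ := by
    calc ‖E 1 * κ‖ = ‖(E 1 * κ - 2 * π * Complex.I) + 2 * π * Complex.I‖ := by ring_nf
      _ ≤ _ := norm_add_le _ _
  have h2 : ‖(2 * π * Complex.I : ℂ)‖ = 2 * π := by
    rw [norm_mul, norm_mul, Complex.norm_I, Complex.norm_ofNat, Complex.norm_real,
      Real.norm_of_nonneg Real.pi_pos.le]; ring
  rw [norm_mul] at h1
  have := h.e1
  linarith

/-- the key smallness of powers of `k` -/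
theorem pow_le (h : Hyp κ E γ δ t) (c : ℝ) (hc0 : 0 ≤ c) (hc : c * ‖κ‖ ≤ 1 / 2) (n : ℕ)
    (hn : 1 ≤ n) : (c * ‖κ‖) ^ n ≤ 2 * (c * ‖κ‖) * (1 / 2) ^ n := by
  have h0 : 0 ≤ c * ‖κ‖ := mul_nonneg hc0 h.kpos.le
  obtain ⟨m, rfl⟩ := Nat.exists_eq_add_of_le hn
  rw [pow_add, pow_add, pow_one, pow_one]
  have h1 : (c * ‖κ‖) ^ m ≤ (1 / 2) ^ m := pow_le_pow_left₀ h0 hc m
  calc c * ‖κ‖ * (c * ‖κ‖) ^ m ≤ c * ‖κ‖ * (1 / 2) ^ m := mul_le_mul_of_nonneg_left h1 h0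
    _ = 2 * (c * ‖κ‖) * (1 / 2 * (1 / 2) ^ m) := by ring

end Hyp

/-! ### Matrix -/

/-- The matrix in scaled coordinates. -/
def Mat (E : ℕ → ℂ) (t : ℝ) (n m : ℕ) : ℂ :=
  (((2 * t) ^ n * (t / 2) ^ m * (Nat.choose (m + n - 1) n : ℝ) : ℝ) : ℂ) * E (m + n)

theorem norm_Mat_le {κ : ℂ} {E : ℕ → ℂ} {γ δ t : ℝ} (h : Hyp κ E γ δ t) (n m : ℕ) (hn : 1 ≤ n)
    (hm : 1 ≤ m) : ‖Mat E t n m‖ ≤ 2 * δ * ‖κ‖ * (1 / 2) ^ n := by
  have hk := h.kpos
  have ht := h.tpos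
  have hd := h.δpos
  unfold Mat
  rw [norm_mul, Complex.norm_real, Real.norm_of_nonneg (by positivity)]
  have h1 : (Nat.choose (m + n - 1) n : ℝ) ≤ 2 ^ (m + n) / 2 := by
    have h2 : Nat.choose (m + n - 1) n ≤ 2 ^ (m + n - 1) := Nat.choose_le_two_pow _ _
    have h3 : (2:ℝ) ^ (m + n) / 2 = 2 ^ (m + n - 1) := by
      obtain ⟨p, hp⟩ : ∃ p, m + n = p + 1 := ⟨m + n - 1, by omega⟩
      rw [hp, pow_succ]; simp
    rw [h3]
    exact_mod_cast h2
  have h2 : ‖E (m + n)‖ ≤ δ * (5 / 4) ^ (m + n) / ‖κ‖ := by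
    rw [le_div_iff₀ hk, mul_comm]; exact h.ej _ (by omega)
  have h3 : (2 * t) ^ n * (t / 2) ^ m * (Nat.choose (m + n - 1) n : ℝ) * ‖E (m + n)‖ ≤
      (2 * t) ^ n * (t / 2) ^ m * (2 ^ (m + n) / 2) * (δ * (5 / 4) ^ (m + n) / ‖κ‖) := by
    gcongr
  have h4 : (2 * t) ^ n * (t / 2) ^ m * (2 ^ (m + n) / 2) * (δ * (5 / 4) ^ (m + n) / ‖κ‖) =
      (5 * t) ^ n * (5 / 4 * t) ^ m * δ / (2 * ‖κ‖) := by
    rw [pow_add, pow_add]
    have e1 : (5 * t) ^ n = (2 * t) ^ n * 2 ^ n * (5 / 4) ^ n := by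
      rw [← mul_pow, ← mul_pow]; congr 1; ring
    have e2 : (5 / 4 * t) ^ m = (t / 2) ^ m * 2 ^ m * (5 / 4) ^ m := by
      rw [← mul_pow, ← mul_pow]; congr 1; ring
    rw [e1, e2]
    field_simp
  have h5 : (5 * t) ^ n ≤ (5 / 2 * ‖κ‖) ^ n := by
    apply pow_le_pow_left₀ (by positivity)
    have := h.tle; linarith
  have h6 : (5 / 4 * t) ^ m ≤ 5 / 8 * ‖κ‖ := by
    have h7 : 5 / 4 * t ≤ 5 / 8 * ‖κ‖ := by have := h.tle; linarith
    have h8 : 5 / 4 * t ≤ 1 := by have := h.ksmall; linarith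
    calc (5 / 4 * t) ^ m ≤ (5 / 4 * t) ^ 1 := pow_le_pow_of_le_one (by positivity) h8 hm
      _ ≤ _ := by rw [pow_one]; exact h7
  have h7 := h.pow_le (5 / 2) (by norm_num) (by have := h.ksmall; linarith) n hn
  calc (2 * t) ^ n * (t / 2) ^ m * (Nat.choose (m + n - 1) n : ℝ) * ‖E (m + n)‖
      ≤ (5 * t) ^ n * (5 / 4 * t) ^ m * δ / (2 * ‖κ‖) := h3.trans h4.le
    _ ≤ (2 * (5 / 2 * ‖κ‖) * (1 / 2) ^ n) * (5 / 8 * ‖κ‖) * δ / (2 * ‖κ‖) := by
        have := h5.trans h7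
        gcongr
    _ ≤ 2 * δ * ‖κ‖ * (1 / 2) ^ n := by
        have e : (2 * (5 / 2 * ‖κ‖) * (1 / 2) ^ n) * (5 / 8 * ‖κ‖) * δ / (2 * ‖κ‖) =
          25 / 16 * (δ * ‖κ‖ * (1 / 2) ^ n) := by field_simp; ring
        rw [e]
        have : 0 ≤ δ * ‖κ‖ * (1 / 2) ^ n := by positivity
        nlinarith

/-- The full matrix on `ℤ`. -/
def MM (E : ℕ → ℂ) (t : ℝ) (n k : ℤ) : ℂ :=
  if 0 < n ∧ k < 0 then (-1) ^ k * Mat E t n.natAbs k.natAbs
  else if n < 0 ∧ 0 < k then (-1) ^ n * conj (Mat E t n.natAbs k.natAbs) else 0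

/-- The geometric weight. -/
def geo (n : ℤ) : ℝ := (1 / 2) ^ n.natAbs

theorem geo_nonneg (n : ℤ) : 0 ≤ geo n := by unfold geo; positivity

theorem hasSum_geo : HasSum geo 3 := by
  have h1 : HasSum (fun n : ℕ => geo (n : ℤ)) 2 := by
    have := hasSum_geometric_two
    refine this.congr_fun ?_ |> fun h => h
    intro n
    simp [geo]
  have h2 : HasSum (fun n : ℕ => geo (-((n : ℤ) + 1))) 1 := by
    have h3 := (hasSum_geometric_two).mul_left (1 / 2 : ℝ)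
    have e : (1 / 2 : ℝ) * 2 = 1 := by norm_num
    rw [e] at h3
    refine h3.congr_fun ?_ |> fun h => h
    intro n
    have : (-((n : ℤ) + 1)).natAbs = n + 1 := by omega
    simp only [geo, this, pow_succ]
    ring
  have h3 := HasSum.of_nat_of_neg_add_one h1 h2
  convert h3 using 1
  norm_num

theorem norm_MM_le {κ : ℂ} {E : ℕ → ℂ} {γ δ t : ℝ} (h : Hyp κ E γ δ t) (n k : ℤ) :
    ‖MM E t n k‖ ≤ 2 * δ * ‖κ‖ * geo n := by
  have h0 : 0 ≤ 2 * δ * ‖κ‖ * geo n := by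
    have := h.δpos; have := h.kpos; have := geo_nonneg n; positivity
  unfold MM
  split_ifs with h1 h2
  · rw [norm_mul]
    have : ‖(-1 : ℂ) ^ k‖ = 1 := by simp
    rw [this, one_mul]
    exact norm_Mat_le h _ _ (by omega) (by omega)
  · rw [norm_mul, RCLike.norm_conj]
    have : ‖(-1 : ℂ) ^ n‖ = 1 := by simp
    rw [this, one_mul]
    exact norm_Mat_le h _ _ (by omega) (by omega)
  · simpa using h0

theorem summable_g (δ k : ℝ) : Summable fun n : ℤ => 2 * δ * k * geo n :=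
  hasSum_geo.summable.mul_left _

theorem tsum_g (δ k : ℝ) : ∑' n : ℤ, 2 * δ * k * geo n = 6 * δ * k := by
  rw [tsum_mul_left, hasSum_geo.tsum_eq]; ring

/-! ### The vector -/

/-- Scaled coefficients `2^n t^n E n / (2 n)`. -/
def Uc (E : ℕ → ℂ) (t : ℝ) (n : ℕ) : ℂ := (((2 * t) ^ n / (2 * n) : ℝ) : ℂ) * E n

/-- The vector on `ℤ`. -/
def UU (E : ℕ → ℂ) (t : ℝ) (n : ℤ) : ℂ :=
  if 0 < n then Uc E t n.natAbs else if n < 0 then (-1) ^ n * conj (Uc E t n.natAbs) else 0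

/-- The indicator of `±1`. -/
def ind (n : ℤ) : ℝ := (if n = 1 then 1 else 0) + (if n = -1 then 1 else 0)

theorem hasSum_ind : HasSum ind 2 := by
  have := (hasSum_ite_eq (1 : ℤ) (1 : ℝ)).add (hasSum_ite_eq (-1 : ℤ) (1 : ℝ))
  rw [show (1:ℝ) + 1 = 2 by norm_num] at this
  exact this

theorem ind_nonneg (n : ℤ) : 0 ≤ ind n := by unfold ind; split_ifs <;> norm_num

theorem norm_Uc_le {κ : ℂ} {E : ℕ → ℂ} {γ δ t : ℝ} (h : Hyp κ E γ δ t) (n : ℕ) (hn : 2 ≤ n) :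
    ‖Uc E t n‖ ≤ 2 * δ * ‖κ‖ * (1 / 2) ^ n := by
  have hk := h.kpos
  have ht := h.tpos
  have hd := h.δpos
  unfold Uc
  rw [norm_mul, Complex.norm_real, Real.norm_of_nonneg (by positivity)]
  have h2 : ‖E n‖ ≤ δ * (5 / 4) ^ n / ‖κ‖ := by
    rw [le_div_iff₀ hk, mul_comm]; exact h.ej _ hn
  have hn' : (2:ℝ) ≤ n := by exact_mod_cast hn
  have h3 : (2 * t) ^ n / (2 * n) ≤ (2 * t) ^ n / 4 := by
    apply div_le_div_of_nonneg_left (by positivity) (by norm_num) (by linarith)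
  have h4 : (2 * t) ^ n / (2 * n) * ‖E n‖ ≤ (2 * t) ^ n / 4 * (δ * (5 / 4) ^ n / ‖κ‖) := by
    gcongr
  have h5 : (2 * t) ^ n / 4 * (δ * (5 / 4) ^ n / ‖κ‖) = (5 / 2 * t) ^ n * δ / (4 * ‖κ‖) := by
    have e1 : (5 / 2 * t) ^ n = (2 * t) ^ n * (5 / 4) ^ n := by
      rw [← mul_pow]; congr 1; ring
    rw [e1]; field_simp
  have h6 : (5 / 2 * t) ^ n ≤ (5 / 4 * ‖κ‖) ^ n := by
    apply pow_le_pow_left₀ (by positivity)
    have := h.tle; linarith
  have h7 : (5 / 4 * ‖κ‖) ^ n ≤ 25 / 4 * ‖κ‖ ^ 2 * (1 / 2) ^ n := by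
    obtain ⟨m, rfl⟩ := Nat.exists_eq_add_of_le hn
    rw [pow_add, pow_add]
    have h8 : (5 / 4 * ‖κ‖) ^ m ≤ (1 / 2) ^ m :=
      pow_le_pow_left₀ (by positivity) (by have := h.ksmall; linarith) m
    calc (5 / 4 * ‖κ‖) ^ 2 * (5 / 4 * ‖κ‖) ^ m ≤ (5 / 4 * ‖κ‖) ^ 2 * (1 / 2) ^ m := by gcongr
      _ = 25 / 4 * ‖κ‖ ^ 2 * ((1 / 2) ^ 2 * (1 / 2) ^ m) := by ring
  calc (2 * t) ^ n / (2 * n) * ‖E n‖ ≤ (5 / 2 * t) ^ n * δ / (4 * ‖κ‖) := h4.trans h5.le
    _ ≤ (25 / 4 * ‖κ‖ ^ 2 * (1 / 2) ^ n) * δ / (4 * ‖κ‖) := by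
        have := h6.trans h7
        gcongr
    _ ≤ 2 * δ * ‖κ‖ * (1 / 2) ^ n := by
        have e : (25 / 4 * ‖κ‖ ^ 2 * (1 / 2) ^ n) * δ / (4 * ‖κ‖) =
          25 / 16 * (δ * ‖κ‖ * (1 / 2) ^ n) := by field_simp; norm_num
        rw [e]
        have : 0 ≤ δ * ‖κ‖ * (1 / 2) ^ n := by positivity
        nlinarith

theorem Uc_one (E : ℕ → ℂ) (t : ℝ) : Uc E t 1 = (t : ℂ) * E 1 := by
  unfold Uc; push_cast; ring

theorem norm_UU_le {κ : ℂ} {E : ℕ → ℂ} {γ δ t : ℝ} (h : Hyp κ E γ δ t) (n : ℤ) :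
    ‖UU E t n‖ ≤ t * ‖E 1‖ * ind n + 2 * δ * ‖κ‖ * geo n := by
  have hk := h.kpos
  have ht := h.tpos
  have hd := h.δpos
  have hgeo := geo_nonneg n
  have hind := ind_nonneg n
  have key : ∀ m : ℕ, 1 ≤ m → n.natAbs = m →
      ‖Uc E t m‖ ≤ t * ‖E 1‖ * ind n + 2 * δ * ‖κ‖ * geo n := by
    intro m hm hnm
    rcases Nat.lt_or_ge m 2 with h2 | h2
    · have hm1 : m = 1 := by omega
      rw [hm1, Uc_one, norm_mul, Complex.norm_real, Real.norm_of_nonneg ht.le]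
      have : ind n = 1 := by
        unfold ind
        rcases Int.natAbs_eq n with h3 | h3
        · rw [hnm, hm1] at h3; rw [h3]; norm_num
        · rw [hnm, hm1] at h3; rw [h3]; norm_num
      rw [this]
      have : 0 ≤ 2 * δ * ‖κ‖ * geo n := by positivity
      linarith
    · have h3 := norm_Uc_le h m h2
      have h4 : geo n = (1 / 2) ^ m := by unfold geo; rw [hnm]
      rw [h4]
      have : 0 ≤ t * ‖E 1‖ * ind n := by positivity
      linarith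
  unfold UU
  split_ifs with h1 h2
  · exact key _ (by omega) rfl
  · rw [norm_mul, RCLike.norm_conj]
    have : ‖(-1 : ℂ) ^ n‖ = 1 := by simp
    rw [this, one_mul]
    exact key _ (by omega) rfl
  · rw [norm_zero]; positivity

theorem summable_Ub (t e d k : ℝ) : Summable fun n : ℤ => t * e * ind n + 2 * d * k * geo n :=
  (hasSum_ind.summable.mul_left _).add (summable_g _ _)

theorem tsum_Ub (t e d k : ℝ) :
    ∑' n : ℤ, (t * e * ind n + 2 * d * k * geo n) = 2 * t * e + 6 * d * k := by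
  rw [(hasSum_ind.summable.mul_left _).tsum_add (summable_g _ _), tsum_mul_left,
    hasSum_ind.tsum_eq, tsum_g]
  ring

/-! ### The functional -/

/-- The coefficients of the functional. -/
def cc (E : ℕ → ℂ) (t : ℝ) (k : ℤ) : ℂ :=
  if k < 0 then (-1) ^ k * ((((t / 2) ^ k.natAbs : ℝ) : ℂ) * E k.natAbs)
  else if 0 < k then (((t / 2) ^ k.natAbs : ℝ) : ℂ) * conj (E k.natAbs) else 0

theorem norm_cc_le {κ : ℂ} {E : ℕ → ℂ} {γ δ t : ℝ} (h : Hyp κ E γ δ t) (k : ℤ) :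
    ‖cc E t k‖ ≤ t * ‖E 1‖ / 2 + δ := by
  have hk := h.kpos
  have ht := h.tpos
  have hd := h.δpos
  have key : ∀ m : ℕ, 1 ≤ m → (t / 2) ^ m * ‖E m‖ ≤ t * ‖E 1‖ / 2 + δ := by
    intro m hm
    rcases Nat.lt_or_ge m 2 with h2 | h2
    · have hm1 : m = 1 := by omega
      rw [hm1, pow_one]
      have : t / 2 * ‖E 1‖ = t * ‖E 1‖ / 2 := by ring
      linarith
    · have h3 : ‖E m‖ ≤ δ * (5 / 4) ^ m / ‖κ‖ := by
        rw [le_div_iff₀ hk, mul_comm]; exact h.ej _ h2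
      have h4 : (t / 2) ^ m * ‖E m‖ ≤ (t / 2) ^ m * (δ * (5 / 4) ^ m / ‖κ‖) := by gcongr
      have h5 : (t / 2) ^ m * (δ * (5 / 4) ^ m / ‖κ‖) = (5 / 8 * t) ^ m * δ / ‖κ‖ := by
        have e1 : (5 / 8 * t) ^ m = (t / 2) ^ m * (5 / 4) ^ m := by
          rw [← mul_pow]; congr 1; ring
        rw [e1]; field_simp
      have h6 : (5 / 8 * t) ^ m ≤ ‖κ‖ := by
        have h8 : 5 / 8 * t ≤ 1 := by have := h.ksmall; have := h.tle; linarith
        calc (5 / 8 * t) ^ m ≤ (5 / 8 * t) ^ 1 := pow_le_pow_of_le_one (by positivity) h8 hm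
          _ ≤ _ := by rw [pow_one]; have := h.tle; linarith
      have h7 : (5 / 8 * t) ^ m * δ / ‖κ‖ ≤ δ := by
        rw [div_le_iff₀ hk, mul_comm]; gcongr
      have : 0 ≤ t * ‖E 1‖ / 2 := by positivity
      linarith
  unfold cc
  split_ifs with h1 h2
  · rw [norm_mul, norm_mul, Complex.norm_real, Real.norm_of_nonneg (by positivity)]
    have : ‖(-1 : ℂ) ^ k‖ = 1 := by simp
    rw [this, one_mul]
    exact key _ (by omega)
  · rw [norm_mul, RCLike.norm_conj, Complex.norm_real, Real.norm_of_nonneg (by positivity)]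
    exact key _ (by omega)
  · rw [norm_zero]; positivity

/-! ### The data -/

/-- The data of the fixed point equation for given lattice constants and radius. -/
def dat {κ : ℂ} {E : ℕ → ℂ} {γ δ t : ℝ} (h : Hyp κ E γ δ t) : Dat where
  A := matL (MM E t) (fun n => 2 * δ * ‖κ‖ * geo n) (summable_g _ _) (norm_MM_le h)
  U := L1.mk (UU E t) (Summable.of_nonneg_of_le (fun _ => norm_nonneg _) (norm_UU_le h)
    (summable_Ub _ _ _ _))
  l := functional (cc E t) (norm_cc_le h)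
  ν := ((1 / (γ + Real.log t) : ℝ) : ℂ)

variable {κ : ℂ} {E : ℕ → ℂ} {γ δ t : ℝ}

theorem dat_A (h : Hyp κ E γ δ t) (x : L1) (n : ℤ) : (dat h).A x n = ∑' k, MM E t n k * x k := rfl
theorem dat_U (h : Hyp κ E γ δ t) (n : ℤ) : (dat h).U n = UU E t n := rfl
theorem dat_l (h : Hyp κ E γ δ t) (x : L1) : (dat h).l x = ∑' k, cc E t k * x k := rfl
theorem dat_ν (h : Hyp κ E γ δ t) : (dat h).ν = ((1 / (γ + Real.log t) : ℝ) : ℂ) := rfl

theorem norm_dat_A (h : Hyp κ E γ δ t) (x : L1) : ‖(dat h).A x‖ ≤ (6 * δ * ‖κ‖) * ‖x‖ := by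
  have := norm_matL_le (summable_g δ ‖κ‖) (norm_MM_le h) x
  rwa [tsum_g] at this

theorem norm_dat_U (h : Hyp κ E γ δ t) : ‖(dat h).U‖ ≤ 2 * t * ‖E 1‖ + 6 * δ * ‖κ‖ := by
  have := L1.norm_le_tsum (dat h).U _ (summable_Ub _ _ _ _) (norm_UU_le h)
  rwa [tsum_Ub] at this

theorem norm_dat_l (h : Hyp κ E γ δ t) (x : L1) :
    ‖(dat h).l x‖ ≤ (t * ‖E 1‖ / 2 + δ) * ‖x‖ := norm_functional_apply_le (norm_cc_le h) x

/-! ### Symmetry of the data -/

theorem MM_symm (E : ℕ → ℂ) (t : ℝ) (n k : ℤ) :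
    MM E t (-n) (-k) * (-1) ^ k = (-1) ^ n * conj (MM E t n k) := by
  unfold MM
  simp only [Int.natAbs_neg]
  rcases lt_trichotomy n 0 with hn | hn | hn <;> rcases lt_trichotomy k 0 with hk | hk | hk
  · rw [if_neg (by omega), if_neg (by omega), if_neg (by omega), if_neg (by omega)]; simp
  · rw [if_neg (by omega), if_neg (by omega), if_neg (by omega), if_neg (by omega)]; simp
  · rw [if_pos (by omega), if_neg (by omega), if_pos (by omega), map_mul, sgn_conj,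
      Complex.conj_conj, sgn_neg]
    have h1 := sgn_mul_self n
    have h2 := sgn_mul_self k
    linear_combination (Mat E t n.natAbs k.natAbs) * h2 - (Mat E t n.natAbs k.natAbs) * h1
  · rw [if_neg (by omega), if_neg (by omega), if_neg (by omega), if_neg (by omega)]; simp
  · rw [if_neg (by omega), if_neg (by omega), if_neg (by omega), if_neg (by omega)]; simp
  · rw [if_neg (by omega), if_neg (by omega), if_neg (by omega), if_neg (by omega)]; simp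
  · rw [if_neg (by omega), if_pos (by omega), if_pos (by omega), map_mul, sgn_conj, sgn_neg]
    ring
  · rw [if_neg (by omega), if_neg (by omega), if_neg (by omega), if_neg (by omega)]; simp
  · rw [if_neg (by omega), if_neg (by omega), if_neg (by omega), if_neg (by omega)]; simp

theorem cc_symm (E : ℕ → ℂ) (t : ℝ) (k : ℤ) :
    cc E t (-k) * (-1) ^ k = conj (cc E t k) := by
  unfold cc
  simp only [Int.natAbs_neg]
  rcases lt_trichotomy k 0 with hk | hk | hk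
  · rw [if_neg (by omega), if_pos (by omega), if_pos (by omega), map_mul, map_mul, sgn_conj,
      Complex.conj_ofReal]
    ring
  · rw [if_neg (by omega), if_neg (by omega), if_neg (by omega), if_neg (by omega)]; simp
  · rw [if_pos (by omega), if_neg (by omega), if_pos (by omega), map_mul, Complex.conj_conj,
      Complex.conj_ofReal, sgn_neg]
    have h2 := sgn_mul_self k
    linear_combination ((((t / 2) ^ k.natAbs : ℝ) : ℂ) * E k.natAbs) * h2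

theorem IsH_UU (E : ℕ → ℂ) (t : ℝ) : IsH (UU E t) := fun n => by
  unfold UU
  simp only [Int.natAbs_neg]
  rcases lt_trichotomy n 0 with hn | hn | hn
  · rw [if_pos (by omega), if_neg (by omega), if_pos (by omega), map_mul, sgn_conj,
      Complex.conj_conj]
    have h2 := sgn_mul_self n
    linear_combination (-(Uc E t n.natAbs)) * h2
  · rw [if_neg (by omega), if_neg (by omega), if_neg (by omega), if_neg (by omega)]; simp
  · rw [if_neg (by omega), if_pos (by omega), if_pos (by omega), sgn_neg]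

theorem dat_sym (h : Hyp κ E γ δ t) : (dat h).Sym where
  A := fun x hx n => by
    rw [dat_A, dat_A, Complex.conj_tsum, ← tsum_mul_left,
      ← (Equiv.neg ℤ).tsum_eq (f := fun k => MM E t (-n) k * x k)]
    refine tsum_congr fun k => ?_
    show MM E t (-n) (-k) * x (-k) = _
    rw [hx k, map_mul, ← mul_assoc, ← mul_assoc, MM_symm]
  U := IsH_UU E t
  l := fun x hx => by
    rw [dat_l, Complex.conj_tsum,
      ← (Equiv.neg ℤ).tsum_eq (f := fun k => cc E t k * x k)]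
    refine tsum_congr fun k => ?_
    show _ = cc E t (-k) * x (-k)
    rw [hx k, map_mul, ← mul_assoc, cc_symm]
  ν := by rw [dat_ν, Complex.conj_ofReal]

end

end Pool.Agent.FB.Fix
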