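import Pool.Agent.FB.Fix.Data

/-!
# Identities and bounds for the concrete data
-/

namespace Pool.Agent.FB.Fix

open Set Filter Topology
open scoped ENNReal ComplexConjugate Real

noncomputable section

variable {κ : ℂ} {E : ℕ → ℂ} {γ δ t : ℝ}

/-! ### Sums over the integers -/

theorem tsum_int_neg (F : ℤ → ℂ) (hF : ∀ k : ℤ, 0 ≤ k → F k = 0) :
    ∑' k : ℤ, F k = ∑' m : ℕ, F (-((m : ℤ) + 1)) := by
  have hinj : Function.Injective (fun m : ℕ => -((m : ℤ) + 1)) := fun a b h => by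
    simp only [neg_inj, add_left_inj, Nat.cast_inj] at h; exact h
  refine (hinj.tsum_eq fun k hk => ?_).symm
  have hk' : k < 0 := by
    by_contra hcon
    exact hk (hF k (by omega))
  exact ⟨(-k - 1).toNat, by simp only []; omega⟩

theorem tsum_int_symm (F : ℤ → ℂ) (hs : Summable F) (h0 : F 0 = 0)
    (hsym : ∀ n, F (-n) = conj (F n)) :
    ∑' k : ℤ, F k = ((2 * ∑' m : ℕ, (F ((m : ℤ) + 1)).re : ℝ) : ℂ) := by
  have hi1 : Function.Injective (fun m : ℕ => (m : ℤ)) := Nat.cast_injective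
  have hi2 : Function.Injective (fun m : ℕ => -((m : ℤ) + 1)) := fun a b h => by
    simp only [neg_inj, add_left_inj, Nat.cast_inj] at h; exact h
  have hi3 : Function.Injective (fun m : ℕ => (m : ℤ) + 1) := fun a b h => by
    simp only [add_left_inj, Nat.cast_inj] at h; exact h
  have hs1 : Summable (fun m : ℕ => F (m : ℤ)) := hs.comp_injective hi1
  have hs2 : Summable (fun m : ℕ => F (-((m : ℤ) + 1))) := hs.comp_injective hi2
  have hs3 : Summable (fun m : ℕ => F ((m : ℤ) + 1)) := hs.comp_injective hi3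
  rw [tsum_of_nat_of_neg_add_one hs1 hs2, hs1.tsum_eq_zero_add]
  have e1 : (fun m : ℕ => F (((m + 1 : ℕ) : ℤ))) = fun m : ℕ => F ((m : ℤ) + 1) := by
    funext m; push_cast; rfl
  rw [show (F ((0 : ℕ) : ℤ)) = 0 from h0, zero_add]
  have e2 : ∑' m : ℕ, F (((m + 1 : ℕ) : ℤ)) = ∑' m : ℕ, F ((m : ℤ) + 1) := by rw [e1]
  rw [e2, ← hs3.tsum_add hs2]
  have e3 : ∀ m : ℕ, F ((m : ℤ) + 1) + F (-((m : ℤ) + 1)) =
      (((2 * (F ((m : ℤ) + 1)).re : ℝ)) : ℂ) := fun m => by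
    rw [hsym, Complex.add_conj]
  rw [tsum_congr e3, ← Complex.ofReal_tsum, tsum_mul_left]

/-! ### The regular coefficients -/

theorem un_A (h : Hyp κ E γ δ t) {b : L1} (hb : IsH b) {n : ℕ} (hn : n ≠ 0) :
    un ((dat h).A b) (n : ℤ) = (t : ℂ) ^ n * ∑' m : ℕ, (Nat.choose (m + n) n : ℂ) *
      (t : ℂ) ^ (m + 1) * E (m + 1 + n) * conj (bN b (m + 1)) := by
  unfold un
  rw [dat_A, tsum_int_neg (fun k => MM E t (n : ℤ) k * b k)
    (fun k hk => by
      have : MM E t (n : ℤ) k = 0 := by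
        unfold MM
        rw [if_neg (by omega), if_neg (by omega)]
      rw [this, zero_mul]), ← tsum_div_const, ← tsum_mul_left]
  refine tsum_congr fun m => ?_
  have e1 : MM E t (n : ℤ) (-((m : ℤ) + 1)) = (-1) ^ ((m : ℤ) + 1) * Mat E t n (m + 1) := by
    unfold MM
    rw [if_pos ⟨by omega, by omega⟩, sgn_neg, Int.natAbs_natCast]
    have : (-((m : ℤ) + 1)).natAbs = m + 1 := by omega
    rw [this]
  have e2 : b (-((m : ℤ) + 1)) = (-1) ^ ((m : ℤ) + 1) * conj (b ((m : ℤ) + 1)) := hb _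
  rw [e1, e2]
  have e3 : conj (bN b (m + 1)) = conj (b ((m : ℤ) + 1)) / 2 ^ (m + 1) := by
    unfold bN
    rw [conj_un]
    push_cast
    have : ((m : ℤ) + 1).natAbs = m + 1 := by omega
    rw [this]
  rw [e3]
  unfold Mat
  have e4 : m + 1 + n - 1 = m + n := by omega
  rw [e4, Int.natAbs_natCast]
  have h1 : (2:ℂ) ^ n ≠ 0 := pow_ne_zero _ two_ne_zero
  have h2 : (2:ℂ) ^ (m + 1) ≠ 0 := pow_ne_zero _ two_ne_zero
  have h3 := sgn_mul_self ((m : ℤ) + 1)
  push_cast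
  rw [mul_pow, div_pow]
  field_simp
  linear_combination ((Nat.choose (m + n) n : ℂ) * E (m + 1 + n) *
    conj (b ((m : ℤ) + 1)) * (t : ℂ) ^ n * (t : ℂ) ^ (m + 1)) * h3

theorem un_U (h : Hyp κ E γ δ t) {n : ℕ} (hn : n ≠ 0) :
    un (dat h).U (n : ℤ) = (t : ℂ) ^ n * (E n / (2 * n)) := by
  unfold un
  rw [dat_U]
  unfold UU Uc
  rw [if_pos (by omega), Int.natAbs_natCast]
  have h1 : (2:ℂ) ^ n ≠ 0 := pow_ne_zero _ two_ne_zero
  have h2 : (n : ℂ) ≠ 0 := by exact_mod_cast hn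
  push_cast
  rw [mul_pow]
  field_simp

theorem a_zero (h : Hyp κ E γ δ t) (b : L1) : (dat h).a b 0 = 0 := by
  unfold Dat.a
  rw [L1.sub_apply', L1.smul_apply', dat_A, dat_U]
  have e : ∀ k, MM E t 0 k * b k = 0 := fun k => by
    unfold MM; rw [if_neg (by omega), if_neg (by omega), zero_mul]
  rw [tsum_congr e, tsum_zero]
  unfold UU
  rw [if_neg (by omega), if_neg (by omega)]; simp

theorem aN_eq (h : Hyp κ E γ δ t) {b : L1} (hb : IsH b) (β : ℝ) (hβ : (dat h).β b = β) :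
    aN (dat h) b = FB.regC E t β (bN b) := by
  funext n
  unfold FB.regC
  split_ifs with hn
  · unfold aN un
    rw [hn]
    have := a_zero h b
    simp [this]
  · unfold aN
    rw [Dat.a, un_sub, un_smul, un_A h hb hn, un_U h hn, hβ]
    ring

/-! ### The logarithmic coefficient -/

theorem l_eq (h : Hyp κ E γ δ t) {b : L1} (hb : IsH b) :
    (dat h).l b = ((2 * ∑' m : ℕ, t ^ (m + 1) * (E (m + 1) * conj (bN b (m + 1))).re : ℝ) : ℂ) := by
  rw [dat_l, tsum_int_symm (fun k => cc E t k * b k) (summable_functional (norm_cc_le h) b)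
    (by simp [cc]) (fun n => by
      show cc E t (-n) * b (-n) = _
      rw [hb n, map_mul, ← mul_assoc, cc_symm])]
  congr 2
  refine tsum_congr fun m => ?_
  have e3 : conj (bN b (m + 1)) = conj (b ((m : ℤ) + 1)) / 2 ^ (m + 1) := by
    unfold bN
    rw [conj_un]
    push_cast
    have : ((m : ℤ) + 1).natAbs = m + 1 := by omega
    rw [this]
  have e4 : cc E t ((m : ℤ) + 1) = (((t / 2) ^ (m + 1) : ℝ) : ℂ) * conj (E (m + 1)) := by
    unfold cc
    have : ((m : ℤ) + 1).natAbs = m + 1 := by omega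
    rw [if_neg (by omega), if_pos (by omega), this]
  show (cc E t ((m : ℤ) + 1) * b ((m : ℤ) + 1)).re = _
  rw [e3, e4]
  have e5 : (((t / 2) ^ (m + 1) : ℝ) : ℂ) * conj (E (m + 1)) * b ((m : ℤ) + 1) =
      (((t / 2) ^ (m + 1) : ℝ) : ℂ) * conj (E (m + 1) * conj (b ((m : ℤ) + 1))) := by
    rw [map_mul, Complex.conj_conj]; ring
  have e6 : E (m + 1) * (conj (b ((m : ℤ) + 1)) / 2 ^ (m + 1)) =
      (((1 / 2) ^ (m + 1) : ℝ) : ℂ) * (E (m + 1) * conj (b ((m : ℤ) + 1))) := by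
    push_cast
    rw [one_div, inv_pow]
    ring
  rw [e5, e6, Complex.re_ofReal_mul, Complex.re_ofReal_mul, Complex.conj_re, div_pow, one_div,
    inv_pow]
  ring

namespace Hyp

theorem t_lt_one (h : Hyp κ E γ δ t) : t < 1 := by
  have := h.ksmall; have := h.tle; linarith

theorem log_bound (h : Hyp κ E γ δ t) : ‖κ‖ ^ 2 * |Real.log t| ≤ 10 * δ := by
  have ht := h.tpos
  have hk := h.kpos
  have h1 : Real.log t ≤ 0 := Real.log_nonpos ht.le h.t_lt_one.le
  have h2 : Real.log (1 / t) ≤ 1 / t - 1 := Real.log_le_sub_one_of_pos (by positivity)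
  rw [Real.log_div one_ne_zero ht.ne', Real.log_one] at h2
  rw [abs_of_nonpos h1]
  have h3 : 1 / t ≤ 10 / ‖κ‖ := by
    rw [div_le_div_iff₀ ht hk]
    have := h.tge
    linarith
  have h4 : -Real.log t ≤ 10 / ‖κ‖ := by linarith
  calc ‖κ‖ ^ 2 * -Real.log t ≤ ‖κ‖ ^ 2 * (10 / ‖κ‖) := by gcongr
    _ = 10 * ‖κ‖ := by field_simp
    _ ≤ 10 * δ := by have := h.kle; linarith

theorem den_bound (h : Hyp κ E γ δ t) :
    |(γ + Real.log t) * ‖κ‖ ^ 2 + 2 * π| ≤ 11 * δ := by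
  have h1 := h.gam
  have h2 := h.log_bound
  have e : (γ + Real.log t) * ‖κ‖ ^ 2 + 2 * π = (γ * ‖κ‖ ^ 2 + 2 * π) + ‖κ‖ ^ 2 * Real.log t := by
    ring
  rw [e]
  refine (abs_add_le _ _).trans ?_
  rw [abs_mul, abs_of_nonneg (by positivity : (0:ℝ) ≤ ‖κ‖ ^ 2)]
  linarith

theorem den_le (h : Hyp κ E γ δ t) : (γ + Real.log t) * ‖κ‖ ^ 2 ≤ -6 := by
  have h1 := (abs_le.1 h.den_bound).2
  have h2 := h.δle
  have h3 := Real.pi_gt_d2
  linarith

theorem den_ne (h : Hyp κ E γ δ t) : γ + Real.log t ≠ 0 := by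
  intro h0
  have := h.den_le
  rw [h0] at this
  linarith

theorem abs_nu_le (h : Hyp κ E γ δ t) : |1 / (γ + Real.log t)| ≤ ‖κ‖ ^ 2 / 6 := by
  have hk := h.kpos
  have h1 := h.den_le
  have h2 : γ + Real.log t ≤ -(6 / ‖κ‖ ^ 2) := by
    rw [← neg_div, le_div_iff₀ (by positivity)]; exact h1
  have h3 : 6 / ‖κ‖ ^ 2 ≤ |γ + Real.log t| := by
    rw [abs_of_nonpos (by have : 0 < 6 / ‖κ‖ ^ 2 := by positivity
                          linarith)]
    linarith
  rw [abs_div, abs_one, div_le_div_iff₀ (abs_pos.2 h.den_ne) (by norm_num)]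
  rw [div_le_iff₀ (by positivity)] at h3
  linarith

theorem nu_near (h : Hyp κ E γ δ t) :
    |1 / (γ + Real.log t) + ‖κ‖ ^ 2 / (2 * π)| ≤ δ * ‖κ‖ ^ 2 / 2 := by
  have hk := h.kpos
  have hd := h.δpos
  have hpi := Real.pi_gt_d2
  have hne := h.den_ne
  have e : 1 / (γ + Real.log t) + ‖κ‖ ^ 2 / (2 * π) =
      (1 / (γ + Real.log t)) * (((γ + Real.log t) * ‖κ‖ ^ 2 + 2 * π) / (2 * π)) := by
    field_simp; ring
  rw [e, abs_mul, abs_div ((γ + Real.log t) * ‖κ‖ ^ 2 + 2 * π), abs_of_pos (by positivity : 0 < 2 * π)]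
  have h1 := h.abs_nu_le
  have h2 := h.den_bound
  have h3 : |(γ + Real.log t) * ‖κ‖ ^ 2 + 2 * π| / (2 * π) ≤ 11 * δ / (2 * 3.14) := by
    gcongr
  calc |1 / (γ + Real.log t)| * (|(γ + Real.log t) * ‖κ‖ ^ 2 + 2 * π| / (2 * π))
      ≤ ‖κ‖ ^ 2 / 6 * (11 * δ / (2 * 3.14)) := by gcongr
    _ ≤ δ * ‖κ‖ ^ 2 / 2 := by
        have h4 : 0 ≤ δ * ‖κ‖ ^ 2 := by positivity
        have e2 : ‖κ‖ ^ 2 / 6 * (11 * δ / (2 * 3.14)) = (11 / 37.68) * (δ * ‖κ‖ ^ 2) := by ring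
        rw [e2]
        linarith

end Hyp

/-- The real value of the logarithmic coefficient. -/
def βr (E : ℕ → ℂ) (γ t : ℝ) (b : L1) : ℝ :=
  1 / (γ + Real.log t) *
    (1 - 2 * ∑' m : ℕ, t ^ (m + 1) * (E (m + 1) * conj (bN b (m + 1))).re)

theorem β_eq (h : Hyp κ E γ δ t) {b : L1} (hb : IsH b) : (dat h).β b = βr E γ t b := by
  unfold Dat.β βr
  rw [dat_ν, l_eq h hb]
  push_cast
  ring

theorem constC_eq (h : Hyp κ E γ δ t) (b : L1) :
    FB.constC E γ t (βr E γ t b) (bN b) = 1 := by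
  unfold FB.constC βr
  have := h.den_ne
  field_simp
  ring

/-! ### The leading term -/

/-- Scaled leading coefficients. -/
def lead (κ : ℂ) (t : ℝ) : L1 :=
  lp.single 1 (1 : ℤ) (Complex.I * conj κ * t) + lp.single 1 (-1 : ℤ) (Complex.I * κ * t)

theorem lead_apply (κ : ℂ) (t : ℝ) (n : ℤ) : lead κ t n =
    (if n = 1 then Complex.I * conj κ * t else 0) + (if n = -1 then Complex.I * κ * t else 0) := by
  unfold lead
  rw [L1.add_apply', lp.single_apply, lp.single_apply]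
  simp only [Pi.single_apply]

theorem norm_lead_le (κ : ℂ) {t : ℝ} (ht : 0 ≤ t) : ‖lead κ t‖ ≤ 2 * ‖κ‖ * t := by
  unfold lead
  refine (norm_add_le _ _).trans ?_
  rw [lp.norm_single (by norm_num), lp.norm_single (by norm_num)]
  simp only [norm_mul, Complex.norm_I, RCLike.norm_conj, Complex.norm_real,
    Real.norm_of_nonneg ht, one_mul]
  linarith

theorem un_lead (κ : ℂ) (t : ℝ) (n : ℕ) : un (lead κ t) (n : ℤ) = FB.leadC κ t n := by
  unfold un FB.leadC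
  rw [lead_apply, if_neg (show ¬ (n : ℤ) = -1 by omega), Int.natAbs_natCast]
  by_cases hn : n = 1
  · subst hn; simp
  · rw [if_neg (show ¬ (n : ℤ) = 1 by omega), if_neg hn]; simp

theorem PL_lead (κ : ℂ) (t : ℝ) : PL (lead κ t) = 0 := L1.ext' fun n => by
  rw [PL_apply]
  split_ifs with h4
  · rw [lead_apply, lead_apply, if_neg (by omega), if_neg (by omega), if_neg (by omega),
      if_neg (by omega)]
    simp
  · rfl

end

end Pool.Agent.FB.Fix
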