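import Pool.Agent.FB.Fix.Sol

/-!
# The two boundary equations for a fixed point
-/

namespace Pool.Agent.FB.Fix

open Set Filter Topology
open scoped ENNReal ComplexConjugate

noncomputable section

theorem sgn_natAbs (n : ℤ) : (-1:ℂ) ^ n.natAbs = (-1) ^ n := by
  rcases Int.natAbs_eq n with h | h
  · conv_rhs => rw [h]
    rw [zpow_natCast]
  · conv_rhs => rw [h]
    rw [sgn_neg, zpow_natCast]

theorem conj_un (x : L1) (n : ℤ) : conj (un x n) = conj (x n) / 2 ^ n.natAbs := by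
  unfold un
  rw [map_div₀, map_pow, Complex.conj_ofNat]

theorem IsH.un {x : L1} (hx : IsH x) (n : ℤ) : un x (-n) = (-1) ^ n * conj (un x n) := by
  rw [conj_un]
  unfold Fix.un
  rw [hx n, Int.natAbs_neg]; ring

theorem ext_un {x : L1} (hx : IsH x) (h0 : x 0 = 0) (n : ℤ) :
    FB.ext (fun m : ℕ => un x (m : ℤ)) n = un x n := by
  unfold FB.ext
  split_ifs with h1 h2
  · show un x (n.toNat : ℤ) = _
    rw [Int.toNat_of_nonneg h1.le]
  · show (-1) ^ n.natAbs * conj (un x (((-n).toNat : ℕ) : ℤ)) = _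
    rw [Int.toNat_of_nonneg (by omega), sgn_natAbs]
    have h := hx.un (-n)
    rw [neg_neg, sgn_neg] at h
    exact h.symm
  · have : n = 0 := by omega
    rw [this]
    unfold un; simp [h0]

/-- For the symmetry class, `PL` is the real part on the modes divisible by four. -/
theorem un_PL_re {x : L1} (hx : IsH x) (n : ℤ) :
    un (PL x) n = if (4:ℤ) ∣ n then ((un x n).re : ℂ) else 0 := by
  rw [un_PL]
  split_ifs with h
  · rw [hx.un n, sgn_four h, one_mul, Complex.add_conj]; push_cast; ring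
  · rfl

section seqs

variable {D : Dat} {b : L1}

/-- The regular coefficients as a sequence. -/
def aN (D : Dat) (b : L1) (n : ℕ) : ℂ := un (D.a b) (n : ℤ)
/-- The singular coefficients as a sequence. -/
def bN (b : L1) (n : ℕ) : ℂ := un b (n : ℤ)

theorem fC_eq (hD : D.Sym) (hb : IsH b) (ha0 : D.a b 0 = 0) (hb0 : b 0 = 0) (n : ℤ) :
    FB.fC (aN D b) (bN b) n = (if n = 0 then 1 else 0) + un (D.φ b) n := by
  unfold FB.fC
  split_ifs with h
  · rw [h]
    unfold un Dat.φ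
    rw [L1.add_apply', ha0, hb0]; simp
  · have h1 := ext_un (hD.a hb) ha0 n
    have h2 := ext_un hb hb0 n
    have h3 : FB.ext (aN D b) n = un (D.a b) n := h1
    have h4 : FB.ext (bN b) n = un b n := h2
    rw [h3, h4, Dat.φ, un_add]; ring

theorem gC_eq (hD : D.Sym) (hb : IsH b) (ha0 : D.a b 0 = 0) (hb0 : b 0 = 0) (β : ℝ) (n : ℤ) :
    FB.gC β (aN D b) (bN b) n = (if n = 0 then (β : ℂ) else 0) + (n.natAbs : ℂ) * un (D.d b) n := by
  unfold FB.gC
  split_ifs with h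
  · rw [h]; simp
  · have h1 := ext_un (hD.a hb) ha0 n
    have h2 := ext_un hb hb0 n
    have h3 : FB.ext (aN D b) n = un (D.a b) n := h1
    have h4 : FB.ext (bN b) n = un b n := h2
    rw [h3, h4, Dat.d, un_sub]; ring

theorem cj_eq (hD : D.Sym) (hb : IsH b) (ha0 : D.a b 0 = 0) (hb0 : b 0 = 0) (n : ℤ) :
    FB.cj (FB.fC (aN D b) (bN b)) n = (if n = 0 then 1 else 0) + un (Dm (D.φ b)) n := by
  unfold FB.cj
  rw [fC_eq hD hb ha0 hb0, un_Dm, sgn_natAbs]
  split_ifs with h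
  · rw [h]; simp
  · ring

theorem PPf_eq (hD : D.Sym) (hb : IsH b) (ha0 : D.a b 0 = 0) (hb0 : b 0 = 0) (n : ℤ) :
    FB.PP (FB.fC (aN D b) (bN b)) n = (if n = 0 then 1 else 0) + un (PL (D.φ b)) n := by
  unfold FB.PP
  rw [un_PL_re (hD.φ hb), fC_eq hD hb ha0 hb0]
  by_cases h4 : (4:ℤ) ∣ n
  · rw [if_pos h4, if_pos h4]
    by_cases h0 : n = 0
    · simp [h0]
    · simp [h0]
  · have h0 : n ≠ 0 := fun h => h4 (by rw [h]; exact dvd_zero _)
    simp [h4, h0]

theorem PPg_eq (hD : D.Sym) (hb : IsH b) (ha0 : D.a b 0 = 0) (hb0 : b 0 = 0) (β : ℝ) (n : ℤ) :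
    FB.PP (FB.gC β (aN D b) (bN b)) n =
      (if n = 0 then (β : ℂ) else 0) + (n.natAbs : ℂ) * un (PL (D.d b)) n := by
  unfold FB.PP
  rw [un_PL_re (hD.d hb), gC_eq hD hb ha0 hb0]
  by_cases h4 : (4:ℤ) ∣ n
  · rw [if_pos h4, if_pos h4]
    by_cases h0 : n = 0
    · simp [h0]
    · have e : ((n.natAbs : ℂ) * un (D.d b) n).re = (n.natAbs : ℝ) * (un (D.d b) n).re := by
        rw [show (n.natAbs : ℂ) = ((n.natAbs : ℝ) : ℂ) by norm_cast, Complex.re_ofReal_mul]
      rw [if_neg h0, zero_add, zero_add, e]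
      norm_cast
  · have h0 : n ≠ 0 := fun h => h4 (by rw [h]; exact dvd_zero _)
    simp [h4, h0]

theorem tsum_swap (x y : ℤ → ℂ) (n : ℤ) :
    ∑' k : ℤ, x k * y (n - k) = ∑' k : ℤ, y k * x (n - k) := by
  rw [← (Equiv.subLeft n).tsum_eq (f := fun k : ℤ => x k * y (n - k))]
  refine tsum_congr fun k => ?_
  show x (n - k) * y (n - (n - k)) = _
  rw [sub_sub_cancel]; ring

theorem summable_swap {x y : ℤ → ℂ} {n : ℤ} (h : Summable fun k : ℤ => x k * y (n - k)) :
    Summable fun k : ℤ => y k * x (n - k) := by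
  have := ((Equiv.subLeft n).summable_iff (f := fun k : ℤ => x k * y (n - k))).2 h
  refine this.congr fun k => ?_
  show x (n - k) * y (n - (n - k)) = _
  rw [sub_sub_cancel]; ring

/-- The first boundary equation (`|u| = 1`). -/
theorem eq1 (hD : D.Sym) (hb : IsH b) (hfix : D.Psi b = b) (ha0 : D.a b 0 = 0) (n : ℤ)
    (hn : n ≠ 0) :
    FB.PP (FB.conv (FB.fC (aN D b) (bN b)) (FB.cj (FB.fC (aN D b) (bN b)))) n = 0 := by
  have hb0 := Dat.fixed_zero hfix ha0
  unfold FB.PP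
  split_ifs with h4
  · have e1 : FB.fC (aN D b) (bN b) = fun k => (if k = 0 then 1 else 0) + un (D.φ b) k :=
      funext (fC_eq hD hb ha0 hb0)
    have e2 : FB.cj (FB.fC (aN D b) (bN b)) =
        fun k => (if k = 0 then 1 else 0) + un (Dm (D.φ b)) k := funext (cj_eq hD hb ha0 hb0)
    rw [e2, e1, conv_delta 1 1 n (summable_unun (D.φ b) (Dm (D.φ b)) n), if_neg hn]
    have e3 : FB.conv (un (D.φ b)) (un (Dm (D.φ b))) n = un (mulL (D.φ b) (Dm (D.φ b))) n := by
      rw [un_mulL]; rfl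
    rw [e3, un_Dm, sgn_four h4]
    have h1 : un (PL (D.φ b)) n = un (-D.Q b : L1) n := by rw [Dat.PL_φ hfix]
    have h2 := un_PL_re (hD.φ hb) n
    rw [if_pos h4] at h2
    have hm : IsH (mulL (D.φ b) (Dm (D.φ b))) := (hD.φ hb).mulL (hD.φ hb).Dm
    have h3 : un (-D.Q b : L1) n = -(1 / 2) * ((un (mulL (D.φ b) (Dm (D.φ b))) n).re : ℂ) := by
      have h5 : un (-D.Q b : L1) n = -(1 / 2) * un (PL (mulL (D.φ b) (Dm (D.φ b)))) n := by
        unfold Dat.Q un
        rw [L1.neg_apply', L1.smul_apply', PL0_apply, PL_apply, if_pos ⟨h4, hn⟩, if_pos h4]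
        ring
      rw [h5, un_PL_re hm, if_pos h4]
    rw [h2, h3] at h1
    have h6 : (un (D.φ b) n).re = -(1 / 2) * (un (mulL (D.φ b) (Dm (D.φ b))) n).re := by
      have := congrArg Complex.re h1
      simpa using this
    have h7 : (0 + 1 * (1 * un (D.φ b) n) + 1 * un (D.φ b) n +
        un (mulL (D.φ b) (Dm (D.φ b))) n).re = 0 := by
      simp only [Complex.add_re, zero_add, one_mul]
      rw [h6]; ring
    rw [h7]; simp
  · rfl

/-- The second boundary equation (free boundary condition). -/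
theorem eq2 (hD : D.Sym) (hb : IsH b) (hfix : D.Psi b = b) (ha0 : D.a b 0 = 0) (β : ℝ)
    (hβ : D.β b = β) (n : ℤ) :
    FB.conv (FB.PP (FB.fC (aN D b) (bN b))) (FB.gC β (aN D b) (bN b)) n =
      FB.conv (FB.PP (FB.gC β (aN D b) (bN b))) (FB.fC (aN D b) (bN b)) n := by
  have hb0 := Dat.fixed_zero hfix ha0
  have e1 : FB.fC (aN D b) (bN b) = fun k => (if k = 0 then 1 else 0) + un (D.φ b) k :=
    funext (fC_eq hD hb ha0 hb0)
  have e2 : FB.gC β (aN D b) (bN b) =
      fun k => (if k = 0 then (β : ℂ) else 0) + (k.natAbs : ℂ) * un (D.d b) k :=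
    funext (gC_eq hD hb ha0 hb0 β)
  have e3 : FB.PP (FB.fC (aN D b) (bN b)) =
      fun k => (if k = 0 then 1 else 0) + un (PL (D.φ b)) k := funext (PPf_eq hD hb ha0 hb0)
  have e4 : FB.PP (FB.gC β (aN D b) (bN b)) =
      fun k => (if k = 0 then (β : ℂ) else 0) + (k.natAbs : ℂ) * un (PL (D.d b)) k :=
    funext (PPg_eq hD hb ha0 hb0 β)
  have hs1 : Summable fun k : ℤ => un (PL (D.φ b)) k * (((n - k).natAbs : ℂ) * un (D.d b) (n - k)) :=
    summable_swap (x := fun k : ℤ => (k.natAbs : ℂ) * un (D.d b) k) (y := un (PL (D.φ b)))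
      (summable_SS (D.d b) (PL (D.φ b)) n)
  have hs2 : Summable fun k : ℤ => ((k.natAbs : ℂ) * un (PL (D.d b)) k) * un (D.φ b) (n - k) :=
    summable_SS (PL (D.d b)) (D.φ b) n
  rw [e3, e4, e2, e1, conv_delta (x := un (PL (D.φ b)))
    (y := fun k : ℤ => (k.natAbs : ℂ) * un (D.d b) k) 1 (β : ℂ) n hs1,
    conv_delta (x := fun k : ℤ => (k.natAbs : ℂ) * un (PL (D.d b)) k) (y := un (D.φ b))
      (β : ℂ) 1 n hs2]
  have c1 : FB.conv (un (PL (D.φ b))) (fun k : ℤ => (k.natAbs : ℂ) * un (D.d b) k) n =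
      SS (D.d b) (PL (D.φ b)) n :=
    tsum_swap (un (PL (D.φ b))) (fun k : ℤ => (k.natAbs : ℂ) * un (D.d b) k) n
  have c2 : FB.conv (fun k : ℤ => (k.natAbs : ℂ) * un (PL (D.d b)) k) (un (D.φ b)) n =
      SS (PL (D.d b)) (D.φ b) n := rfl
  rw [c1, c2]
  rcases eq_or_ne n 0 with rfl | hn
  · have h := SS_comb (D.d b) (D.φ b) (n := 0) (dvd_zero _)
    rw [neg_zero] at h
    have hφ0 : un (D.φ b) 0 = 0 := by
      unfold un Dat.φ
      rw [L1.add_apply', ha0, hb0]; simp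
    have hPφ0 : un (PL (D.φ b)) 0 = 0 := by
      rw [un_PL, neg_zero, hφ0]; simp
    rw [hφ0, hPφ0]
    simp only [Int.natAbs_zero, Nat.cast_zero, zero_mul, mul_zero, add_zero, if_true, one_mul,
      mul_one]
    linear_combination (-1 / 2 : ℂ) * h
  · have h1 := D.un_N b hn
    have h2 : un (D.d b - PL (D.d b) : L1) n = un (D.N b) n := by rw [Dat.d_eq hfix]
    rw [un_sub] at h2
    rw [if_neg hn, if_neg hn]
    rw [← h2, hβ] at h1
    linear_combination h1

end seqs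

end

end Pool.Agent.FB.Fix
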