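import Pool.Agent.FB.Fix.Near

/-!
# Continuity in the radius, intermediate value theorem, and the final theorem
-/

namespace Pool.Agent.FB.Fix

open Set Filter Topology
open scoped ENNReal ComplexConjugate Real

noncomputable section

variable {κ : ℂ} {E : ℕ → ℂ} {γ δ : ℝ}

/-- The interval of radii. -/
def II (κ : ℂ) : Set ℝ := Icc (‖κ‖ / 10) (‖κ‖ / 8)

/-- The data as a function of the radius. -/
def Dt {κ : ℂ} {E : ℕ → ℂ} {γ δ : ℝ} (H : ∀ t ∈ II κ, Hyp κ E γ δ t) (t : ℝ) : Dat :=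
  open Classical in if h : t ∈ II κ then dat (H t h) else ⟨0, 0, 0, 0⟩

theorem Dt_eq (H : ∀ t ∈ II κ, Hyp κ E γ δ t) {t : ℝ} (h : t ∈ II κ) : Dt H t = dat (H t h) := by
  unfold Dt; rw [dif_pos h]

theorem continuous_MM (E : ℕ → ℂ) (n k : ℤ) : Continuous fun t : ℝ => MM E t n k := by
  have hM : ∀ a b : ℕ, Continuous fun t : ℝ => Mat E t a b := fun a b => by
    unfold Mat; fun_prop
  unfold MM
  split_ifs
  · exact continuous_const.mul (hM _ _)
  · exact continuous_const.mul (Complex.continuous_conj.comp (hM _ _))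
  · exact continuous_const

theorem continuous_UU (E : ℕ → ℂ) (n : ℤ) : Continuous fun t : ℝ => UU E t n := by
  have hM : ∀ a : ℕ, Continuous fun t : ℝ => Uc E t a := fun a => by
    unfold Uc; fun_prop
  unfold UU
  split_ifs
  · exact hM _
  · exact continuous_const.mul (Complex.continuous_conj.comp (hM _))
  · exact continuous_const

theorem continuous_cc (E : ℕ → ℂ) (k : ℤ) : Continuous fun t : ℝ => cc E t k := by
  unfold cc
  split_ifs
  · fun_prop
  · fun_prop
  · exact continuous_const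

theorem contA (H : ∀ t ∈ II κ, Hyp κ E γ δ t) (b : L1) :
    ContinuousOn (fun t => (Dt H t).A b) (II κ) := by
  refine continuousOn_L1 _ (fun n => 2 * δ * ‖κ‖ * geo n * ‖b‖) ((summable_g _ _).mul_right _)
    (fun n => ?_) (fun n t ht => ?_)
  · have h1 : ContinuousOn (fun t => ∑' k : ℤ, MM E t n k * b k) (II κ) := by
      refine continuousOn_tsum (u := fun k => 2 * δ * ‖κ‖ * geo n * ‖b k‖)
        (fun k => ((continuous_MM E n k).mul continuous_const).continuousOn)
        (b.summable_norm.mul_left _) (fun k t ht => ?_)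
      rw [norm_mul]
      exact mul_le_mul_of_nonneg_right (norm_MM_le (H t ht) n k) (norm_nonneg _)
    refine h1.congr fun t ht => ?_
    show (Dt H t).A b n = _
    rw [Dt_eq H ht, dat_A]
  · rw [Dt_eq H ht, dat_A]
    exact norm_mat_apply_le (g := fun n => 2 * δ * ‖κ‖ * geo n) (norm_MM_le (H t ht)) b n

theorem contU (H : ∀ t ∈ II κ, Hyp κ E γ δ t) :
    ContinuousOn (fun t => (Dt H t).U) (II κ) := by
  refine continuousOn_L1 _ (fun n => ‖κ‖ / 8 * ‖E 1‖ * ind n + 2 * δ * ‖κ‖ * geo n)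
    (summable_Ub _ _ _ _) (fun n => ?_) (fun n t ht => ?_)
  · refine (continuous_UU E n).continuousOn.congr fun t ht => ?_
    show (Dt H t).U n = _
    rw [Dt_eq H ht, dat_U]
  · rw [Dt_eq H ht, dat_U]
    refine (norm_UU_le (H t ht) n).trans ?_
    have h1 := ht.2
    have h2 := ind_nonneg n
    gcongr

theorem contl (H : ∀ t ∈ II κ, Hyp κ E γ δ t) (b : L1) :
    ContinuousOn (fun t => (Dt H t).l b) (II κ) := by
  have h1 : ContinuousOn (fun t => ∑' k : ℤ, cc E t k * b k) (II κ) := by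
    refine continuousOn_tsum (u := fun k => (‖κ‖ / 8 * ‖E 1‖ / 2 + δ) * ‖b k‖)
      (fun k => ((continuous_cc E k).mul continuous_const).continuousOn)
      (b.summable_norm.mul_left _) (fun k t ht => ?_)
    rw [norm_mul]
    refine mul_le_mul_of_nonneg_right ((norm_cc_le (H t ht) k).trans ?_) (norm_nonneg _)
    have h1 := ht.2
    gcongr
  refine h1.congr fun t ht => ?_
  show (Dt H t).l b = _
  rw [Dt_eq H ht, dat_l]

theorem contν (H : ∀ t ∈ II κ, Hyp κ E γ δ t) : ContinuousOn (fun t => (Dt H t).ν) (II κ) := by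
  have h1 : ContinuousOn (fun t : ℝ => ((1 / (γ + Real.log t) : ℝ) : ℂ)) (II κ) := by
    refine Complex.continuous_ofReal.comp_continuousOn ?_
    refine continuousOn_const.div (continuousOn_const.add ?_) (fun t ht => (H t ht).den_ne)
    exact Real.continuousOn_log.mono fun t ht => (H t ht).tpos.ne'
  refine h1.congr fun t ht => ?_
  show (Dt H t).ν = _
  rw [Dt_eq H ht, dat_ν]

theorem continuousOn_apply {F : Type*} [NormedAddCommGroup F] [NormedSpace ℂ F] {I : Set ℝ}
    (T : ℝ → L1 →L[ℂ] F) (bt : ℝ → L1) {C : ℝ} (hC : ∀ t ∈ I, ∀ x, ‖T t x‖ ≤ C * ‖x‖)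
    (hT : ∀ b, ContinuousOn (fun t => T t b) I) (hb : ContinuousOn bt I) :
    ContinuousOn (fun t => T t (bt t)) I := by
  intro t₀ ht₀
  have h1 : ContinuousWithinAt (fun t => C * ‖bt t - bt t₀‖ + ‖T t (bt t₀) - T t₀ (bt t₀)‖) I t₀ :=
    (continuousWithinAt_const.mul ((hb t₀ ht₀).sub continuousWithinAt_const).norm).add
      ((hT (bt t₀) t₀ ht₀).sub continuousWithinAt_const).norm
  have h2 := h1.tendsto
  simp only [sub_self, norm_zero, mul_zero, add_zero] at h2
  refine tendsto_iff_norm_sub_tendsto_zero.2 ?_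
  refine squeeze_zero' (Eventually.of_forall fun _ => norm_nonneg _) ?_ h2
  filter_upwards [self_mem_nhdsWithin] with t ht
  have e : T t (bt t) - T t₀ (bt t₀) = T t (bt t - bt t₀) + (T t (bt t₀) - T t₀ (bt t₀)) := by
    rw [map_sub]; abel
  rw [e]
  exact (norm_add_le _ _).trans (add_le_add (hC t ht _) le_rfl)

/-- The radius with vanishing scalar function. -/
theorem exists_radius (hk : 0 < ‖κ‖) (H : ∀ t ∈ II κ, Hyp κ E γ δ t) :
    ∃ (t : ℝ) (ht : t ∈ II κ) (b : L1), b ∈ Dat.ball (20 * (‖κ‖ ^ 2 / 6)) ∧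
      (dat (H t ht)).Psi b = b ∧ Th (H t ht) b = 0 := by
  have hsmall : ∀ t ∈ II κ, (Dt H t).Small (6 * δ * ‖κ‖) (‖κ‖ ^ 2 / 6) := fun t ht => by
    rw [Dt_eq H ht]; exact small_dat (H t ht) ht.2
  have hex : ∀ t : ℝ, ∃ b : L1, t ∈ II κ → b ∈ Dat.ball (20 * (‖κ‖ ^ 2 / 6)) ∧
      (Dt H t).Psi b = b := by
    intro t
    by_cases ht : t ∈ II κ
    · obtain ⟨b, hb, hf⟩ := Dat.exists_fixed (hsmall t ht) (by rw [Dt_eq H ht]; exact dat_sym (H t ht))
      exact ⟨b, fun _ => ⟨hb, hf⟩⟩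
    · exact ⟨0, fun h => absurd h ht⟩
  choose bt hbt using hex
  have hball : ∀ t ∈ II κ, bt t ∈ Dat.ball (20 * (‖κ‖ ^ 2 / 6)) := fun t ht => (hbt t ht).1
  have hfix : ∀ t ∈ II κ, (Dt H t).Psi (bt t) = bt t := fun t ht => (hbt t ht).2
  have hcont : ContinuousOn bt (II κ) :=
    Dat.continuousOn_fixed (Dt H) bt hsmall hball hfix (fun b =>
      Dat.continuousOn_Psi (Dt H) b (contA H b) (contU H) (contl H b) (contν H))
  -- continuity of the scalar function
  have hβ : ContinuousOn (fun t => (Dt H t).β (bt t)) (II κ) := by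
    have h1 := continuousOn_apply (fun t => (Dt H t).l) bt (C := 1)
      (fun t ht x => by rw [one_mul]; exact (hsmall t ht).l x) (contl H) hcont
    exact (contν H).mul (continuousOn_const.sub h1)
  have ha : ContinuousOn (fun t => (Dt H t).a (bt t)) (II κ) := by
    have h1 := continuousOn_apply (fun t => (Dt H t).A) bt (fun t ht x => (hsmall t ht).A x)
      (contA H) hcont
    exact h1.sub (hβ.smul (contU H))
  have hq : ContinuousOn (fun t => (quad ((Dt H t).a (bt t)) (bt t)).re) (II κ) := by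
    have h1 : ContinuousOn (fun t => bil wq wq_bd ((Dt H t).a (bt t)) (bt t)) (II κ) :=
      ((bil wq wq_bd).continuous.comp_continuousOn ha).clm_apply hcont
    have h2 : Continuous fun b : L1 => (b 0).re :=
      Complex.continuous_re.comp (lp.evalCLM ℂ (fun _ : ℤ => ℂ) 1 0).continuous
    exact h2.comp_continuousOn h1
  set Tf : ℝ → ℝ := fun t => ((Dt H t).β (bt t)).re ^ 2 - 4 * (quad ((Dt H t).a (bt t)) (bt t)).re
    with hTf
  have hTc : ContinuousOn Tf (II κ) :=
    ((Complex.continuous_re.comp_continuousOn hβ).pow 2).sub (continuousOn_const.mul hq)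
  have hTnear : ∀ t ∈ II κ,
      |Tf t - (‖κ‖ ^ 4 / (4 * π ^ 2) - 2 * ‖κ‖ ^ 2 * t ^ 2)| ≤ 35 * (δ * ‖κ‖ ^ 4) := by
    intro t ht
    have h1 := hfix t ht
    rw [Dt_eq H ht] at h1
    have h2 := Th_near (H t ht) ht.2 (hball t ht) h1
    have e : Tf t = Th (H t ht) (bt t) := by
      rw [hTf]
      simp only []
      rw [Dt_eq H ht]
      rfl
    rw [e]
    exact h2
  have hm1 : ‖κ‖ / 10 ∈ II κ := ⟨le_rfl, by linarith⟩
  have hm2 : ‖κ‖ / 8 ∈ II κ := ⟨by linarith, le_rfl⟩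
  have hδ := (H _ hm1).δle
  have hk4 : 0 < ‖κ‖ ^ 4 := by positivity
  have hpi1 := Real.pi_gt_d4
  have hpi2 := Real.pi_lt_d4
  have hpiq1 : (9.869:ℝ) < π ^ 2 := by nlinarith
  have hpiq2 : π ^ 2 < (9.870:ℝ) := by nlinarith
  have hq1 : 0.0253 * ‖κ‖ ^ 4 < ‖κ‖ ^ 4 / (4 * π ^ 2) := by
    rw [lt_div_iff₀ (by positivity)]
    nlinarith
  have hq2 : ‖κ‖ ^ 4 / (4 * π ^ 2) < 0.0254 * ‖κ‖ ^ 4 := by
    rw [div_lt_iff₀ (by positivity)]
    nlinarith
  have hpos : 0 ≤ Tf (‖κ‖ / 10) := by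
    have h1 := (abs_le.1 (hTnear _ hm1)).1
    have e : 2 * ‖κ‖ ^ 2 * (‖κ‖ / 10) ^ 2 = 0.02 * ‖κ‖ ^ 4 := by ring
    rw [e] at h1
    nlinarith
  have hneg : Tf (‖κ‖ / 8) ≤ 0 := by
    have h1 := (abs_le.1 (hTnear _ hm2)).2
    have e : 2 * ‖κ‖ ^ 2 * (‖κ‖ / 8) ^ 2 = 0.03125 * ‖κ‖ ^ 4 := by ring
    rw [e] at h1
    nlinarith
  obtain ⟨t, ht, hT0⟩ := intermediate_value_Icc' (by linarith : ‖κ‖ / 10 ≤ ‖κ‖ / 8) hTc
    ⟨hneg, hpos⟩
  have ht' : t ∈ II κ := ht
  refine ⟨t, ht', bt t, hball t ht', ?_, ?_⟩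
  · have h1 := hfix t ht'
    rwa [Dt_eq H ht'] at h1
  · have e : Tf t = Th (H t ht') (bt t) := by
      rw [hTf]
      simp only []
      rw [Dt_eq H ht']
      rfl
    rw [← e]
    exact hT0

/-! ### Weighted norms of sequences on the naturals -/

theorem wbound_of (x : L1) {B : ℝ} (hB : ‖x‖ ≤ B) (y : ℕ → ℂ)
    (hy : ∀ n : ℕ, y n = un x (n : ℤ)) : FB.WBound y B := by
  have hs := summable_un x
  have h1 : Summable (fun n : ℕ => 2 ^ ((n : ℤ)).natAbs * ‖un x (n : ℤ)‖) :=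
    hs.comp_injective Nat.cast_injective
  have e : ∀ n : ℕ, (2:ℝ) ^ n * ‖y n‖ = 2 ^ ((n : ℤ)).natAbs * ‖un x (n : ℤ)‖ := fun n => by
    rw [hy n, Int.natAbs_natCast]
  refine ⟨h1.congr fun n => (e n).symm, ?_⟩
  rw [tsum_congr e]
  refine le_trans ?_ hB
  rw [← tsum_un x]
  exact Summable.tsum_le_tsum_of_inj (fun n : ℕ => (n : ℤ)) Nat.cast_injective
    (fun n _ => by positivity) (fun n => le_rfl) h1 hs

/-- THEOREM FIX. -/
theorem theoremFIX : FB.TheoremFIX := by
  intro C hC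
  refine ⟨400 * (C + 1), 1 / (100000 * (C + 1)), by positivity, by positivity, ?_⟩
  intro κ hk hκ₀ E γ hL
  set k := ‖κ‖ with hkdef
  set δ : ℝ := (C + 1) * k with hδ
  have hδpos : 0 < δ := by positivity
  have hδle : δ ≤ 1 / 100000 := by
    rw [le_div_iff₀ (by positivity)] at hκ₀
    rw [hδ]
    linarith
  have H : ∀ t ∈ II κ, Hyp κ E γ δ t := fun t ht =>
    { kpos := hk
      kle := by rw [← hkdef, hδ]; nlinarith
      δle := hδle
      e1 := hL.e1.trans (by rw [← hkdef, hδ]; nlinarith)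
      ej := fun j hj => by
        rw [← hkdef, hδ]
        have h1 := hL.ej j hj
        have h2 : (0:ℝ) < (5 / 4) ^ j := by positivity
        calc k * ‖E j‖ ≤ k * (C * (5 / 4) ^ j) := by gcongr
          _ ≤ (C + 1) * k * (5 / 4) ^ j := by nlinarith [mul_pos hk h2]
      gam := hL.gam.trans (by rw [← hkdef, hδ]; nlinarith)
      tge := ht.1
      tle := ht.2.trans (by linarith) }
  obtain ⟨t, ht, b, hb, hfix, hT⟩ := exists_radius hk H
  have h := H t ht
  have h8 : t ≤ ‖κ‖ / 8 := ht.2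
  have htp := h.tpos
  have hβ : (dat h).β b = βr E γ t b := β_eq h hb.2
  have ha := a_near h h8 hb.1 hb.2
  have hbn := b_near h h8 hb hfix
  have ha0 := a_zero h b
  have hb0 := Dat.fixed_zero hfix ha0
  have hk3 : δ * k ^ 2 = (C + 1) * k ^ 3 := by rw [hδ]; ring
  have hpos3 : 0 < (C + 1) * k ^ 3 := by positivity
  refine ⟨t, βr E γ t b, aN (dat h) b, bN b, ?_⟩
  have hβn : |βr E γ t b + k ^ 2 / (2 * π)| ≤ δ * k ^ 2 := by
    have h1 := β_near h h8 hb.1
    rw [hβ, ← Complex.ofReal_add, Complex.norm_real, Real.norm_eq_abs] at h1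
    exact h1
  exact
    { tnear := by
        have h1 := Th_near h h8 hb hfix
        rw [hT, zero_sub, abs_neg] at h1
        have hpi := Real.pi_pos
        have hs2 : Real.sqrt 2 * Real.sqrt 2 = 2 := Real.mul_self_sqrt (by norm_num)
        have hs2p : 0 < Real.sqrt 2 := by positivity
        set τ := 1 / (2 * Real.sqrt 2 * π) with hτ
        have hτp : 0 < τ := by positivity
        have hτ2 : τ ^ 2 = 1 / (8 * π ^ 2) := by
          rw [hτ, div_pow, mul_pow, mul_pow, Real.sq_sqrt (by norm_num)]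
          norm_num
        have e : ‖κ‖ ^ 4 / (4 * π ^ 2) - 2 * ‖κ‖ ^ 2 * t ^ 2 =
            2 * ‖κ‖ ^ 4 * ((τ - t / ‖κ‖) * (τ + t / ‖κ‖)) := by
          have e2 : (τ - t / ‖κ‖) * (τ + t / ‖κ‖) = τ ^ 2 - t ^ 2 / ‖κ‖ ^ 2 := by ring
          rw [e2, hτ2]
          have := hk.ne'
          rw [hkdef] at this
          field_simp
          ring
        rw [e, abs_mul, abs_of_pos (by positivity : 0 < 2 * ‖κ‖ ^ 4), abs_mul] at h1
        have hq : 1 / 10 ≤ t / ‖κ‖ := by
          rw [le_div_iff₀ hk]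
          have := ht.1
          linarith
        have h2 : 1 / 10 ≤ |τ + t / ‖κ‖| := by
          rw [abs_of_pos (by positivity)]; linarith
        have h3 : 2 * ‖κ‖ ^ 4 * (|τ - t / ‖κ‖| * (1 / 10)) ≤ 35 * (δ * ‖κ‖ ^ 4) := by
          refine le_trans ?_ h1
          gcongr
        have h4 : |τ - t / ‖κ‖| ≤ 175 * δ := by
          have hk4 : 0 < ‖κ‖ ^ 4 := by positivity
          by_contra hcon
          push Not at hcon
          have : 35 * (δ * ‖κ‖ ^ 4) < 2 * ‖κ‖ ^ 4 * (|τ - t / ‖κ‖| * (1 / 10)) := by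
            nlinarith
          linarith
        rw [abs_sub_comm]
        refine h4.trans ?_
        rw [hδ]
        nlinarith
      βnear := hβn.trans (by rw [hk3]; nlinarith)
      b0 := by unfold bN un; simp [hb0]
      anear := wbound_of ((dat h).a b - lead κ t) (ha.trans (by
          rw [← hkdef, hk3]; nlinarith)) _ (fun n => by rw [un_sub, un_lead]; rfl)
      bnear := wbound_of (b - lead κ t) (hbn.trans (by
          rw [← hkdef, hk3]; nlinarith)) _ (fun n => by rw [un_sub, un_lead]; rfl)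
      adef := aN_eq h hb.2 _ hβ
      one := constC_eq h b
      eq1 := fun n hn => eq1 (dat_sym h) hb.2 hfix ha0 n hn
      eq2 := fun n => eq2 (dat_sym h) hb.2 hfix ha0 _ hβ n
      theta := by
        have h1 := hT
        unfold Th at h1
        rw [hβ, Complex.ofReal_re, quad_eq ((dat_sym h).a hb.2) hb.2, Complex.ofReal_re] at h1
        have h2 : (βr E γ t b) ^ 2 = 8 * ∑' n : ℕ, (n : ℝ) ^ 2 *
            (un ((dat h).a b) (n : ℤ) * conj (un b (n : ℤ))).re := by linarith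
        exact h2 }

end

end Pool.Agent.FB.Fix
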