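import Pool.Agent.FB.Fix.Data2

/-!
# Bounds for the fixed point, closeness to the leading term, the scalar equation
-/

namespace Pool.Agent.FB.Fix

open Set Filter Topology
open scoped ENNReal ComplexConjugate Real

noncomputable section

variable {κ : ℂ} {E : ℕ → ℂ} {γ δ t : ℝ}

theorem tE1_le (h : Hyp κ E γ δ t) (h8 : t ≤ ‖κ‖ / 8) : t * ‖E 1‖ ≤ 4 / 5 := by
  have h1 := h.E1_le
  have h2 : t * ‖E 1‖ ≤ ‖κ‖ / 8 * ‖E 1‖ := by gcongr
  have h3 := Real.pi_lt_d2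
  have h4 := h.δle
  linarith

theorem small_dat (h : Hyp κ E γ δ t) (h8 : t ≤ ‖κ‖ / 8) :
    (dat h).Small (6 * δ * ‖κ‖) (‖κ‖ ^ 2 / 6) where
  A := norm_dat_A h
  U := by
    have h1 := norm_dat_U h
    have h2 := tE1_le h h8
    have h3 := h.δle
    have h4 := h.ksmall
    have h5 := h.kpos
    have h6 := h.δpos
    nlinarith
  l := fun x => by
    have h1 := norm_dat_l h x
    have h2 := tE1_le h h8
    have h3 := h.δle
    have h4 := norm_nonneg x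
    nlinarith
  ν := by
    rw [dat_ν, Complex.norm_real, Real.norm_eq_abs]
    exact h.abs_nu_le
  δpos := by
    have := h.kpos; have := h.δpos; positivity
  δle := by
    have h3 := h.δle
    have h4 := h.ksmall
    have h5 := h.kpos
    have h6 := h.δpos
    nlinarith
  ν₀le := by
    have h4 := h.ksmall
    have h5 := h.kpos
    nlinarith

/-- Radius of the ball, in terms of `k`. -/
theorem k4_le (h : Hyp κ E γ δ t) : ‖κ‖ ^ 4 ≤ δ * ‖κ‖ ^ 2 / 100000 := by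
  have h3 := h.kle
  have h4 := h.ksmall
  have h5 := h.kpos
  have h6 := h.δpos
  have e : ‖κ‖ ^ 4 = ‖κ‖ * ‖κ‖ * ‖κ‖ ^ 2 := by ring
  rw [e]
  have h7 : ‖κ‖ * ‖κ‖ ≤ δ * (1 / 100000) := mul_le_mul h3 h4 h5.le h6.le
  have h8 : 0 < ‖κ‖ ^ 2 := by positivity
  nlinarith

section fixed

variable {b : L1}

theorem β_near (h : Hyp κ E γ δ t) (h8 : t ≤ ‖κ‖ / 8) (hb : ‖b‖ ≤ 20 * (‖κ‖ ^ 2 / 6)) :
    ‖(dat h).β b + ((‖κ‖ ^ 2 / (2 * π) : ℝ) : ℂ)‖ ≤ δ * ‖κ‖ ^ 2 := by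
  have hs := small_dat h h8
  have hk := h.kpos
  have hd := h.δpos
  have e : (dat h).β b + ((‖κ‖ ^ 2 / (2 * π) : ℝ) : ℂ) =
      (((1 / (γ + Real.log t) + ‖κ‖ ^ 2 / (2 * π) : ℝ)) : ℂ) - (dat h).ν * (dat h).l b := by
    unfold Dat.β
    rw [dat_ν]
    push_cast
    ring
  rw [e]
  refine (norm_sub_le _ _).trans ?_
  rw [Complex.norm_real, Real.norm_eq_abs, norm_mul]
  have h1 := h.nu_near
  have h2 : ‖(dat h).ν‖ * ‖(dat h).l b‖ ≤ ‖κ‖ ^ 2 / 6 * (20 * (‖κ‖ ^ 2 / 6)) :=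
    mul_le_mul hs.ν ((hs.l b).trans hb) (norm_nonneg _) (by positivity)
  have h3 := k4_le h
  have h4 : 0 < δ * ‖κ‖ ^ 2 := by positivity
  nlinarith

theorem norm_β_le (h : Hyp κ E γ δ t) (h8 : t ≤ ‖κ‖ / 8) (hb : ‖b‖ ≤ 20 * (‖κ‖ ^ 2 / 6)) :
    ‖(dat h).β b‖ ≤ ‖κ‖ ^ 2 / 3 := by
  have := (Dat.lb_β (small_dat h h8) (s := {b : L1 | ‖b‖ ≤ 20 * (‖κ‖ ^ 2 / 6)})
    (fun b hb => hb)).bd b hb
  linarith

theorem e1_bound (h : Hyp κ E γ δ t) (h8 : t ≤ ‖κ‖ / 8) (hb : ‖b‖ ≤ 20 * (‖κ‖ ^ 2 / 6)) :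
    ‖(dat h).β b * (t * E 1) + Complex.I * conj κ * t‖ ≤ 9 / 10 * (δ * ‖κ‖ ^ 2) := by
  have hk := h.kpos
  have hd := h.δpos
  have ht := h.tpos
  have hκ : κ ≠ 0 := norm_pos_iff.1 hk
  have hpi := Real.pi_gt_d2
  have e : (dat h).β b * (t * E 1) + Complex.I * conj κ * t =
      (t : ℂ) * (((dat h).β b + ((‖κ‖ ^ 2 / (2 * π) : ℝ) : ℂ)) * E 1 -
        (((‖κ‖ ^ 2 / (2 * π) : ℝ)) : ℂ) * ((E 1 * κ - 2 * π * Complex.I) / κ)) := by
    have h2 : ((‖κ‖ ^ 2 : ℝ) : ℂ) = κ * conj κ := by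
      rw [Complex.mul_conj, Complex.normSq_eq_norm_sq]
    have h2' : (‖κ‖ : ℂ) ^ 2 = κ * conj κ := by rw [← h2]; push_cast; rfl
    have hpi' : (π : ℂ) ≠ 0 := by exact_mod_cast Real.pi_ne_zero
    push_cast
    rw [h2']
    field_simp
    ring
  rw [e, norm_mul, Complex.norm_real, Real.norm_of_nonneg ht.le]
  have h1 := β_near h h8 hb
  have h2 : ‖E 1‖ ≤ 7 / ‖κ‖ := by
    rw [le_div_iff₀ hk, mul_comm]
    have := h.E1_le
    have := h.δle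
    have := Real.pi_lt_d2
    linarith
  have h3 : ‖((dat h).β b + ((‖κ‖ ^ 2 / (2 * π) : ℝ) : ℂ)) * E 1‖ ≤ 7 * δ * ‖κ‖ := by
    rw [norm_mul]
    calc _ ≤ δ * ‖κ‖ ^ 2 * (7 / ‖κ‖) := mul_le_mul h1 h2 (norm_nonneg _) (by positivity)
      _ = 7 * δ * ‖κ‖ := by field_simp
  have h4 : ‖(((‖κ‖ ^ 2 / (2 * π) : ℝ)) : ℂ) * ((E 1 * κ - 2 * π * Complex.I) / κ)‖ ≤
      δ * ‖κ‖ / 6 := by
    rw [norm_mul, norm_div, Complex.norm_real, Real.norm_of_nonneg (by positivity)]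
    calc _ ≤ ‖κ‖ ^ 2 / (2 * 3) * (δ / ‖κ‖) := by
          have := h.e1
          gcongr
          linarith
      _ = δ * ‖κ‖ / 6 := by field_simp; norm_num
  have h5 := norm_sub_le (((dat h).β b + ((‖κ‖ ^ 2 / (2 * π) : ℝ) : ℂ)) * E 1)
    ((((‖κ‖ ^ 2 / (2 * π) : ℝ)) : ℂ) * ((E 1 * κ - 2 * π * Complex.I) / κ))
  have h6 : ‖((dat h).β b + ((‖κ‖ ^ 2 / (2 * π) : ℝ) : ℂ)) * E 1 -
      (((‖κ‖ ^ 2 / (2 * π) : ℝ)) : ℂ) * ((E 1 * κ - 2 * π * Complex.I) / κ)‖ ≤ 43 / 6 * (δ * ‖κ‖) := by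
    linarith
  calc _ ≤ ‖κ‖ / 8 * (43 / 6 * (δ * ‖κ‖)) := by gcongr
    _ = 43 / 48 * (δ * ‖κ‖ ^ 2) := by ring
    _ ≤ 9 / 10 * (δ * ‖κ‖ ^ 2) := by
      have : 0 ≤ δ * ‖κ‖ ^ 2 := by positivity
      linarith

theorem U_lead_bound (h : Hyp κ E γ δ t) (h8 : t ≤ ‖κ‖ / 8) (hb : ‖b‖ ≤ 20 * (‖κ‖ ^ 2 / 6))
    (hH : IsH b) : ‖(dat h).β b • (dat h).U + lead κ t‖ ≤ 19 / 10 * (δ * ‖κ‖ ^ 2) := by
  have hk := h.kpos
  have hd := h.δpos
  have ht := h.tpos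
  have hβ := norm_β_le h h8 hb
  have hbd : ∀ n : ℤ, ‖((dat h).β b • (dat h).U + lead κ t : L1) n‖ ≤
      9 / 10 * (δ * ‖κ‖ ^ 2) * 1 * ind n + 2 * (‖κ‖ ^ 2 / 3 * δ) * ‖κ‖ * geo n := by
    intro n
    have hgeo := geo_nonneg n
    have hind := ind_nonneg n
    rw [L1.add_apply', L1.smul_apply', dat_U, lead_apply]
    by_cases h1 : n = 1
    · subst h1
      have e : UU E t 1 = t * E 1 := by
        unfold UU; rw [if_pos (by norm_num)]; exact Uc_one E t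
      rw [e, if_pos rfl, if_neg (by norm_num), add_zero]
      have h2 := e1_bound h h8 hb
      have h3 : ind 1 = 1 := by unfold ind; norm_num
      rw [h3]
      have : 0 ≤ 2 * (‖κ‖ ^ 2 / 3 * δ) * ‖κ‖ * geo 1 := by positivity
      linarith
    · by_cases h2 : n = -1
      · subst h2
        have e : UU E t (-1) = -(t * conj (E 1)) := by
          unfold UU
          rw [if_neg (by norm_num), if_pos (by norm_num)]
          have : Uc E t (-1 : ℤ).natAbs = t * E 1 := Uc_one E t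
          rw [this, map_mul, Complex.conj_ofReal]
          norm_num
        have e2 : (dat h).β b * -(t * conj (E 1)) + (0 + Complex.I * κ * t) =
            -conj ((dat h).β b * (t * E 1) + Complex.I * conj κ * t) := by
          rw [map_add, map_mul, map_mul, map_mul, map_mul, Complex.conj_ofReal,
            (dat_sym h).β hH, Complex.conj_I, Complex.conj_conj]
          ring
        rw [e, if_neg (by norm_num), if_pos rfl, e2, norm_neg, RCLike.norm_conj]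
        have h2 := e1_bound h h8 hb
        have h3 : ind (-1) = 1 := by unfold ind; norm_num
        rw [h3]
        have : 0 ≤ 2 * (‖κ‖ ^ 2 / 3 * δ) * ‖κ‖ * geo (-1) := by positivity
        linarith
      · rw [if_neg h1, if_neg h2, add_zero, add_zero, norm_mul]
        have h3 : ‖UU E t n‖ ≤ 2 * δ * ‖κ‖ * geo n := by
          have h4 := norm_UU_le h n
          have h5 : ind n = 0 := by unfold ind; rw [if_neg h1, if_neg h2]; norm_num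
          rw [h5] at h4
          linarith
        have h6 : ‖(dat h).β b‖ * ‖UU E t n‖ ≤ ‖κ‖ ^ 2 / 3 * (2 * δ * ‖κ‖ * geo n) :=
          mul_le_mul hβ h3 (norm_nonneg _) (by positivity)
        have : 0 ≤ 9 / 10 * (δ * ‖κ‖ ^ 2) * 1 * ind n := by positivity
        nlinarith
  have hsum := L1.norm_le_tsum _ _ (summable_Ub _ _ _ _) hbd
  rw [tsum_Ub] at hsum
  refine hsum.trans ?_
  have h1 := h.ksmall
  have h2 : 6 * (‖κ‖ ^ 2 / 3 * δ) * ‖κ‖ ≤ 1 / 10 * (δ * ‖κ‖ ^ 2) := by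
    have : 0 ≤ δ * ‖κ‖ ^ 2 := by positivity
    nlinarith
  linarith

theorem a_near (h : Hyp κ E γ δ t) (h8 : t ≤ ‖κ‖ / 8) (hb : ‖b‖ ≤ 20 * (‖κ‖ ^ 2 / 6))
    (hH : IsH b) : ‖(dat h).a b - lead κ t‖ ≤ 2 * (δ * ‖κ‖ ^ 2) := by
  have hk := h.kpos
  have hd := h.δpos
  have e : (dat h).a b - lead κ t = (dat h).A b - ((dat h).β b • (dat h).U + lead κ t) := by
    unfold Dat.a; abel
  rw [e]
  have h1 := U_lead_bound h h8 hb hH
  have h2 : ‖(dat h).A b‖ ≤ 6 * δ * ‖κ‖ * (20 * (‖κ‖ ^ 2 / 6)) :=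
    (norm_dat_A h b).trans (by gcongr)
  have h3 := norm_sub_le ((dat h).A b) ((dat h).β b • (dat h).U + lead κ t)
  have h4 := h.ksmall
  have h5 : 6 * δ * ‖κ‖ * (20 * (‖κ‖ ^ 2 / 6)) ≤ 1 / 10 * (δ * ‖κ‖ ^ 2) := by
    have : 0 ≤ δ * ‖κ‖ ^ 2 := by positivity
    nlinarith
  linarith

theorem b_near (h : Hyp κ E γ δ t) (h8 : t ≤ ‖κ‖ / 8) (hb : b ∈ Dat.ball (20 * (‖κ‖ ^ 2 / 6)))
    (hfix : (dat h).Psi b = b) : ‖b - lead κ t‖ ≤ 7 * (δ * ‖κ‖ ^ 2) := by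
  have hk := h.kpos
  have hd := h.δpos
  have hs := small_dat h h8
  have ha := a_near h h8 hb.1 hb.2
  have hN := (Dat.lb_N hs (s := Dat.ball (20 * (‖κ‖ ^ 2 / 6))) (fun b hb => hb.1)).bd b hb
  have hQ := (Dat.lb_Q hs (s := Dat.ball (20 * (‖κ‖ ^ 2 / 6))) (fun b hb => hb.1)).bd b hb
  have hP : ‖PL ((dat h).a b)‖ ≤ 2 * (δ * ‖κ‖ ^ 2) := by
    have e : PL ((dat h).a b) = PL ((dat h).a b - lead κ t) := by
      rw [map_sub, PL_lead, sub_zero]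
    rw [e]
    exact (norm_PL_le _).trans ha
  have e : b - lead κ t = ((dat h).a b - lead κ t) - (2 : ℂ) • PL ((dat h).a b) -
      (dat h).N b - (dat h).Q b := by
    conv_lhs => rw [← hfix]
    unfold Dat.Psi
    abel
  rw [e]
  have h1 := norm_sub_le (((dat h).a b - lead κ t) - (2 : ℂ) • PL ((dat h).a b) - (dat h).N b)
    ((dat h).Q b)
  have h2 := norm_sub_le (((dat h).a b - lead κ t) - (2 : ℂ) • PL ((dat h).a b)) ((dat h).N b)
  have h3 := norm_sub_le ((dat h).a b - lead κ t) ((2 : ℂ) • PL ((dat h).a b))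
  rw [norm_smul, Complex.norm_ofNat] at h3
  have h4 := k4_le h
  have h5 : 0 < δ * ‖κ‖ ^ 2 := by positivity
  have h6 : (‖κ‖ ^ 2 / 6) ^ 2 = ‖κ‖ ^ 4 / 36 := by ring
  rw [h6] at hN hQ
  linarith

end fixed

/-! ### The scalar equation -/

/-- Weights of the quadratic functional. -/
def wq (_ k : ℤ) : ℂ := (-1) ^ k * (((k.natAbs : ℝ) ^ 2 / 4 ^ k.natAbs : ℝ) : ℂ)

theorem wq_bd (n k : ℤ) : ‖wq n k‖ ≤ 1 := by
  unfold wq
  rw [norm_mul, Complex.norm_real, Real.norm_of_nonneg (by positivity)]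
  have : ‖(-1 : ℂ) ^ k‖ = 1 := by simp
  rw [this, one_mul, div_le_one (by positivity)]
  have h : (k.natAbs : ℝ) ≤ 2 ^ k.natAbs := by exact_mod_cast (Nat.lt_two_pow_self).le
  calc (k.natAbs : ℝ) ^ 2 ≤ (2 ^ k.natAbs) ^ 2 := by gcongr
    _ = 4 ^ k.natAbs := by rw [← pow_mul, mul_comm, pow_mul]; norm_num

/-- The quadratic functional `∑ k, k² a_k conj b_k` on the symmetry class. -/
def quad (x y : L1) : ℂ := bil wq wq_bd x y 0

theorem quad_apply (x y : L1) : quad x y = ∑' k : ℤ, wq 0 k * x k * y (0 - k) := rfl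

theorem norm_quad_le (x y : L1) : ‖quad x y‖ ≤ ‖x‖ * ‖y‖ :=
  (L1.norm_apply_le _ _).trans (norm_bil_le wq_bd x y)

theorem quad_sub_left (x x' y : L1) : quad (x - x') y = quad x y - quad x' y := by
  unfold quad
  rw [map_sub]; rfl

theorem quad_sub_right (x y y' : L1) : quad x (y - y') = quad x y - quad x y' := by
  unfold quad
  rw [map_sub]; rfl

theorem quad_term {x y : L1} (hy : IsH y) (k : ℤ) :
    wq 0 k * x k * y (0 - k) = (k.natAbs : ℂ) ^ 2 * (un x k * conj (un y k)) := by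
  unfold wq
  rw [zero_sub, hy k, conj_un]
  unfold un
  have h1 : (2:ℂ) ^ k.natAbs ≠ 0 := pow_ne_zero _ two_ne_zero
  have h2 : (4:ℂ) ^ k.natAbs = 2 ^ k.natAbs * 2 ^ k.natAbs := by
    rw [← mul_pow]; norm_num
  have h3 := sgn_mul_self k
  push_cast
  rw [h2]
  field_simp
  linear_combination ((k.natAbs : ℂ) ^ 2 * x k * conj (y k)) * h3

theorem quad_eq {x y : L1} (hx : IsH x) (hy : IsH y) :
    quad x y = ((2 * ∑' n : ℕ, (n : ℝ) ^ 2 *
      (un x (n : ℤ) * conj (un y (n : ℤ))).re : ℝ) : ℂ) := by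
  rw [quad_apply]
  have hs : Summable (fun k : ℤ => wq 0 k * x k * y (0 - k)) := summable_bil wq_bd x y 0
  rw [tsum_int_symm _ hs (by simp [wq]) (fun n => by
    rw [quad_term hy, quad_term hy, hx.un n, hy.un n, Int.natAbs_neg]
    simp only [map_mul, map_pow, Complex.conj_natCast, Complex.conj_conj, sgn_conj]
    have h3 := sgn_mul_self n
    linear_combination ((n.natAbs : ℂ) ^ 2 * conj (un x n) * un y n) * h3)]
  congr 2
  have hs' : Summable (fun n : ℕ => (n : ℝ) ^ 2 * (un x (n : ℤ) * conj (un y (n : ℤ))).re) := by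
    have h1 : Summable (fun n : ℕ => wq 0 (n : ℤ) * x (n : ℤ) * y (0 - (n : ℤ))) :=
      hs.comp_injective Nat.cast_injective
    have h2 := Complex.reCLM.summable h1
    refine h2.congr fun n => ?_
    show (wq 0 (n : ℤ) * x (n : ℤ) * y (0 - (n : ℤ))).re = _
    rw [quad_term hy, Int.natAbs_natCast, show ((n : ℂ)) ^ 2 = (((n : ℝ) ^ 2 : ℝ) : ℂ) by
      push_cast; rfl, Complex.re_ofReal_mul]
  rw [hs'.tsum_eq_zero_add]
  simp only [Nat.cast_zero, ne_eq, OfNat.ofNat_ne_zero, not_false_eq_true, zero_pow, zero_mul,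
    zero_add]
  refine tsum_congr fun m => ?_
  rw [quad_term hy]
  have : ((m : ℤ) + 1).natAbs = m + 1 := by omega
  rw [this, show (((m + 1 : ℕ) : ℂ)) ^ 2 = ((((m + 1 : ℕ) : ℝ) ^ 2 : ℝ) : ℂ) by
    push_cast; rfl, Complex.re_ofReal_mul]
  push_cast
  rfl

theorem quad_lead (κ : ℂ) (t : ℝ) :
    quad (lead κ t) (lead κ t) = ((‖κ‖ ^ 2 * t ^ 2 / 2 : ℝ) : ℂ) := by
  rw [quad_apply]
  have h : ∀ k : ℤ, k ∉ ({1, -1} : Finset ℤ) →
      wq 0 k * lead κ t k * lead κ t (0 - k) = 0 := by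
    intro k hk
    simp only [Finset.mem_insert, Finset.mem_singleton, not_or] at hk
    rw [lead_apply κ t k, if_neg hk.1, if_neg hk.2]; simp
  rw [tsum_eq_sum h, Finset.sum_insert (by decide), Finset.sum_singleton]
  have e1 : lead κ t 1 = Complex.I * conj κ * t := by rw [lead_apply]; simp
  have e2 : lead κ t (-1) = Complex.I * κ * t := by rw [lead_apply]; simp
  have w1 : wq 0 1 = -(1 / 4) := by unfold wq; norm_num
  have w2 : wq 0 (-1) = -(1 / 4) := by unfold wq; norm_num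
  rw [show (0:ℤ) - 1 = -1 by norm_num, show (0:ℤ) - -1 = 1 by norm_num, e1, e2, w1, w2]
  have h2 : κ * conj κ = (‖κ‖ : ℂ) ^ 2 := by
    rw [Complex.mul_conj, Complex.normSq_eq_norm_sq]; push_cast; rfl
  have hI := Complex.I_mul_I
  push_cast
  rw [← h2]
  linear_combination (-(1 / 2) * κ * conj κ * (t : ℂ) ^ 2) * hI

/-- The scalar function whose zero is sought. -/
def Th {κ : ℂ} {E : ℕ → ℂ} {γ δ t : ℝ} (h : Hyp κ E γ δ t) (b : L1) : ℝ :=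
  ((dat h).β b).re ^ 2 - 4 * (quad ((dat h).a b) b).re

theorem Th_near (h : Hyp κ E γ δ t) (h8 : t ≤ ‖κ‖ / 8) {b : L1}
    (hb : b ∈ Dat.ball (20 * (‖κ‖ ^ 2 / 6))) (hfix : (dat h).Psi b = b) :
    |Th h b - (‖κ‖ ^ 4 / (4 * π ^ 2) - 2 * ‖κ‖ ^ 2 * t ^ 2)| ≤ 35 * (δ * ‖κ‖ ^ 4) := by
  have hk := h.kpos
  have hd := h.δpos
  have ht := h.tpos
  have hpi := Real.pi_gt_d2
  have hβ := β_near h h8 hb.1
  have hβ2 := norm_β_le h h8 hb.1
  have ha := a_near h h8 hb.1 hb.2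
  have hbn := b_near h h8 hb hfix
  have hl := norm_lead_le κ ht.le
  -- the square
  have hr1 : |((dat h).β b).re + ‖κ‖ ^ 2 / (2 * π)| ≤ δ * ‖κ‖ ^ 2 := by
    have := (Complex.abs_re_le_norm _).trans hβ
    rwa [Complex.add_re, Complex.ofReal_re] at this
  have hr2 : |((dat h).β b).re - ‖κ‖ ^ 2 / (2 * π)| ≤ ‖κ‖ ^ 2 / 2 := by
    have h1 : |((dat h).β b).re| ≤ ‖κ‖ ^ 2 / 3 := (Complex.abs_re_le_norm _).trans hβ2
    have h2 : |‖κ‖ ^ 2 / (2 * π)| ≤ ‖κ‖ ^ 2 / 6 := by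
      rw [abs_of_nonneg (by positivity)]
      gcongr
      linarith
    have := abs_sub (((dat h).β b).re) (‖κ‖ ^ 2 / (2 * π))
    linarith
  have hsq : |((dat h).β b).re ^ 2 - ‖κ‖ ^ 4 / (4 * π ^ 2)| ≤ 1 / 2 * (δ * ‖κ‖ ^ 4) := by
    have e : ((dat h).β b).re ^ 2 - ‖κ‖ ^ 4 / (4 * π ^ 2) =
        (((dat h).β b).re + ‖κ‖ ^ 2 / (2 * π)) * (((dat h).β b).re - ‖κ‖ ^ 2 / (2 * π)) := by
      field_simp; ring
    rw [e, abs_mul]
    calc _ ≤ (δ * ‖κ‖ ^ 2) * (‖κ‖ ^ 2 / 2) := mul_le_mul hr1 hr2 (abs_nonneg _) (by positivity)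
      _ = _ := by ring
  -- the quadratic functional
  have hq : ‖quad ((dat h).a b) b - quad (lead κ t) (lead κ t)‖ ≤ 17 / 2 * (δ * ‖κ‖ ^ 4) := by
    have e : quad ((dat h).a b) b - quad (lead κ t) (lead κ t) =
        quad ((dat h).a b - lead κ t) b + quad (lead κ t) (b - lead κ t) := by
      rw [quad_sub_left, quad_sub_right]; ring
    rw [e]
    refine (norm_add_le _ _).trans ?_
    have h1 : ‖quad ((dat h).a b - lead κ t) b‖ ≤ 2 * (δ * ‖κ‖ ^ 2) * (20 * (‖κ‖ ^ 2 / 6)) :=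
      (norm_quad_le _ _).trans (mul_le_mul ha hb.1 (norm_nonneg _) (by positivity))
    have h2 : ‖quad (lead κ t) (b - lead κ t)‖ ≤ (‖κ‖ ^ 2 / 4) * (7 * (δ * ‖κ‖ ^ 2)) := by
      refine (norm_quad_le _ _).trans (mul_le_mul ?_ hbn (norm_nonneg _) (by positivity))
      calc ‖lead κ t‖ ≤ 2 * ‖κ‖ * t := hl
        _ ≤ 2 * ‖κ‖ * (‖κ‖ / 8) := by gcongr
        _ = ‖κ‖ ^ 2 / 4 := by ring
    have h3 : 0 ≤ δ * ‖κ‖ ^ 4 := by positivity
    nlinarith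
  have hq2 : |(quad ((dat h).a b) b).re - ‖κ‖ ^ 2 * t ^ 2 / 2| ≤ 17 / 2 * (δ * ‖κ‖ ^ 4) := by
    have := (Complex.abs_re_le_norm _).trans hq
    rw [quad_lead, Complex.sub_re, Complex.ofReal_re] at this
    exact this
  unfold Th
  have e : ((dat h).β b).re ^ 2 - 4 * (quad ((dat h).a b) b).re -
      (‖κ‖ ^ 4 / (4 * π ^ 2) - 2 * ‖κ‖ ^ 2 * t ^ 2) =
      (((dat h).β b).re ^ 2 - ‖κ‖ ^ 4 / (4 * π ^ 2)) -
      4 * ((quad ((dat h).a b) b).re - ‖κ‖ ^ 2 * t ^ 2 / 2) := by ring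
  rw [e]
  have h1 := abs_le.1 hsq
  have h2 := abs_le.1 hq2
  have h3 : 0 ≤ δ * ‖κ‖ ^ 4 := by positivity
  exact abs_le.2 ⟨by linarith [h1.1, h2.2], by linarith [h1.2, h2.1]⟩

end

end Pool.Agent.FB.Fix
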