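import Pool.Agent.FB.Fix.Basic

/-!
# The concrete operators in scaled coordinates

A function `x : ℤ → ℂ` is represented by its scaled version `2 ^ |n| * x n`; `un` goes back.
`mulL` is the convolution, `TL x y n = (1/|n|) ∑ k, |k| x k y (n-k)`, `PL` the projection
`(x n + x (-n)) / 2` on the modes divisible by four, `PL0` the same without the mode `0`,
`Linv` division by `|n|`, `Dm` multiplication by `(-1)^n`.
`IsH x` is the symmetry `x (-n) = (-1)^n * conj (x n)`.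
-/

namespace Pool.Agent.FB.Fix

open Set Filter Topology
open scoped ENNReal ComplexConjugate

noncomputable section

/-- Weight of the product in scaled coordinates. -/
def wm (n k : ℤ) : ℝ := 2 ^ n.natAbs / (2 ^ k.natAbs * 2 ^ (n - k).natAbs)

/-- Weight of the operator `TL` in scaled coordinates. -/
def wT (n k : ℤ) : ℝ := (k.natAbs : ℝ) / (n.natAbs : ℝ) * wm n k

theorem wm_nonneg (n k : ℤ) : 0 ≤ wm n k := by unfold wm; positivity

theorem wm_le (n k : ℤ) : wm n k ≤ 1 := by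
  unfold wm
  rw [div_le_one (by positivity), ← pow_add]
  exact pow_le_pow_right₀ (by norm_num) (by omega)

theorem wT_nonneg (n k : ℤ) : 0 ≤ wT n k := by unfold wT; have := wm_nonneg n k; positivity

theorem nat_aux (N K M : ℕ) (hN : 1 ≤ N) (h1 : N ≤ K + M) (h2 : K ≤ N + M) :
    K * 2 ^ N ≤ N * (2 ^ K * 2 ^ M) := by
  rcases le_total K N with h | h
  · have e : 2 ^ N ≤ 2 ^ K * 2 ^ M := by
      rw [← pow_add]; exact Nat.pow_le_pow_right (by norm_num) h1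
    exact Nat.mul_le_mul h e
  · obtain ⟨j, rfl⟩ := Nat.exists_eq_add_of_le h
    have hj : j ≤ M := by omega
    have e1 : N + j ≤ N * 2 ^ j := by
      have : j + 1 ≤ 2 ^ j := Nat.lt_two_pow_self
      calc N + j ≤ N * (j + 1) := by nlinarith
        _ ≤ N * 2 ^ j := Nat.mul_le_mul_left _ this
    have e2 : 2 ^ j ≤ 2 ^ M * 2 ^ j := Nat.le_mul_of_pos_left _ (by positivity)
    calc (N + j) * 2 ^ N ≤ (N * 2 ^ j) * 2 ^ N := Nat.mul_le_mul_right _ e1
      _ ≤ (N * 2 ^ j) * 2 ^ N * 2 ^ M := Nat.le_mul_of_pos_right _ (by positivity)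
      _ = N * (2 ^ (N + j) * 2 ^ M) := by rw [pow_add]; ring

theorem wT_le (n k : ℤ) : wT n k ≤ 1 := by
  rcases eq_or_ne n 0 with rfl | hn
  · simp [wT]
  · have hN : 1 ≤ n.natAbs := by omega
    have h := nat_aux n.natAbs k.natAbs (n - k).natAbs hN (by omega) (by omega)
    have h' : (k.natAbs : ℝ) * 2 ^ n.natAbs ≤
        (n.natAbs : ℝ) * (2 ^ k.natAbs * 2 ^ (n - k).natAbs) := by exact_mod_cast h
    unfold wT wm
    rw [div_mul_div_comm, div_le_one]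
    · exact h'
    · have : (0:ℝ) < n.natAbs := by exact_mod_cast hN
      positivity

theorem wm_bd (n k : ℤ) : ‖((wm n k : ℝ) : ℂ)‖ ≤ 1 := by
  rw [Complex.norm_real, Real.norm_of_nonneg (wm_nonneg n k)]; exact wm_le n k

theorem wT_bd (n k : ℤ) : ‖((wT n k : ℝ) : ℂ)‖ ≤ 1 := by
  rw [Complex.norm_real, Real.norm_of_nonneg (wT_nonneg n k)]; exact wT_le n k

/-- Convolution in scaled coordinates. -/
def mulL : L1 →L[ℂ] L1 →L[ℂ] L1 := bil (fun n k => ((wm n k : ℝ) : ℂ)) wm_bd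

/-- The operator `(1/|n|) ∑ k, |k| x k y (n-k)` in scaled coordinates. -/
def TL : L1 →L[ℂ] L1 →L[ℂ] L1 := bil (fun n k => ((wT n k : ℝ) : ℂ)) wT_bd

theorem norm_mulL_le (x y : L1) : ‖mulL x y‖ ≤ ‖x‖ * ‖y‖ := norm_bil_le wm_bd x y
theorem norm_TL_le (x y : L1) : ‖TL x y‖ ≤ ‖x‖ * ‖y‖ := norm_bil_le wT_bd x y

/-- Coefficients of the projections. -/
def pc (n : ℤ) : ℂ := if (4:ℤ) ∣ n then 1 / 2 else 0
def pc0 (n : ℤ) : ℂ := if (4:ℤ) ∣ n ∧ n ≠ 0 then 1 / 2 else 0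

theorem pc_bd (n : ℤ) : ‖pc n‖ ≤ 1 / 2 := by unfold pc; split_ifs <;> norm_num
theorem pc0_bd (n : ℤ) : ‖pc0 n‖ ≤ 1 / 2 := by unfold pc0; split_ifs <;> norm_num

/-- The projection on the modes divisible by four, symmetrised. -/
def PL : L1 →L[ℂ] L1 := dg pc pc pc_bd pc_bd
/-- The same without the mode `0`. -/
def PL0 : L1 →L[ℂ] L1 := dg pc0 pc0 pc0_bd pc0_bd

theorem PL_apply (x : L1) (n : ℤ) : PL x n = if (4:ℤ) ∣ n then (x n + x (-n)) / 2 else 0 := by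
  show pc n * x n + pc n * x (-n) = _
  unfold pc; split_ifs <;> ring

theorem PL0_apply (x : L1) (n : ℤ) :
    PL0 x n = if (4:ℤ) ∣ n ∧ n ≠ 0 then (x n + x (-n)) / 2 else 0 := by
  show pc0 n * x n + pc0 n * x (-n) = _
  unfold pc0; split_ifs <;> ring

theorem norm_PL_le (x : L1) : ‖PL x‖ ≤ ‖x‖ := by
  have h := norm_dg_le pc_bd pc_bd x
  rw [show (1/2 + 1/2 : ℝ) = 1 by norm_num, one_mul] at h
  exact h

theorem norm_PL0_le (x : L1) : ‖PL0 x‖ ≤ ‖x‖ := by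
  have h := norm_dg_le pc0_bd pc0_bd x
  rw [show (1/2 + 1/2 : ℝ) = 1 by norm_num, one_mul] at h
  exact h

/-- Coefficients of `Linv`. -/
def lc (n : ℤ) : ℂ := 1 / (n.natAbs : ℂ)

theorem lc_bd (n : ℤ) : ‖lc n‖ ≤ 1 := by
  unfold lc
  rw [norm_div, norm_one, Complex.norm_natCast]
  rcases Nat.eq_zero_or_pos n.natAbs with h | h
  · rw [h]; norm_num
  · have : (1:ℝ) ≤ n.natAbs := by exact_mod_cast h
    rw [div_le_one (by linarith)]; exact this

theorem zero_bd (n : ℤ) : ‖(fun _ : ℤ => (0:ℂ)) n‖ ≤ (0:ℝ) := by simp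

/-- Division by `|n|` (mode `0` is sent to `0`). -/
def Linv : L1 →L[ℂ] L1 := dg lc (fun _ => 0) lc_bd zero_bd

theorem Linv_apply (x : L1) (n : ℤ) : Linv x n = x n / (n.natAbs : ℂ) := by
  show lc n * x n + 0 * x (-n) = _
  unfold lc; ring

theorem norm_Linv_le (x : L1) : ‖Linv x‖ ≤ ‖x‖ := by
  have h := norm_dg_le lc_bd zero_bd x
  rw [show (1 + 0 : ℝ) = 1 by norm_num, one_mul] at h
  exact h

theorem sgn_bd (n : ℤ) : ‖((-1:ℂ) ^ n)‖ ≤ 1 := by simp

/-- Multiplication by `(-1)^n`. -/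
def Dm : L1 →L[ℂ] L1 := dg (fun n => (-1:ℂ) ^ n) (fun _ => 0) sgn_bd zero_bd

theorem Dm_apply (x : L1) (n : ℤ) : Dm x n = (-1) ^ n * x n := by
  show (-1:ℂ) ^ n * x n + 0 * x (-n) = _
  ring

theorem norm_Dm_le (x : L1) : ‖Dm x‖ ≤ ‖x‖ := by
  have h := norm_dg_le sgn_bd zero_bd x
  rw [show (1 + 0 : ℝ) = 1 by norm_num, one_mul] at h
  exact h

/-! ### The symmetry -/

/-- The symmetry class of functions with `x (θ + π) = conj (x θ)`. -/
def IsH (x : ℤ → ℂ) : Prop := ∀ n, x (-n) = (-1) ^ n * conj (x n)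

theorem sgn_neg (n : ℤ) : (-1:ℂ) ^ (-n) = (-1) ^ n := by
  rw [zpow_neg, ← inv_zpow]; norm_num

theorem sgn_mul_self (n : ℤ) : (-1:ℂ) ^ n * (-1) ^ n = 1 := by
  rw [← mul_zpow]; norm_num

theorem sgn_conj (n : ℤ) : conj ((-1:ℂ) ^ n) = (-1) ^ n := by
  rw [map_zpow₀]; simp

theorem sgn_split (n k : ℤ) : (-1:ℂ) ^ k * (-1) ^ (n - k) = (-1) ^ n := by
  rw [← zpow_add₀ (by norm_num)]; congr 1; ring

theorem sgn_four {n : ℤ} (h : (4:ℤ) ∣ n) : (-1:ℂ) ^ n = 1 := by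
  obtain ⟨m, rfl⟩ := h
  rw [zpow_mul]; norm_num

theorem IsH.add {x y : L1} (hx : IsH x) (hy : IsH y) : IsH (x + y : L1) := fun n => by
  rw [L1.add_apply', L1.add_apply', hx n, hy n, map_add]; ring

theorem IsH.sub {x y : L1} (hx : IsH x) (hy : IsH y) : IsH (x - y : L1) := fun n => by
  rw [L1.sub_apply', L1.sub_apply', hx n, hy n, map_sub]; ring

theorem IsH.smul {x : L1} (hx : IsH x) {c : ℂ} (hc : conj c = c) : IsH (c • x : L1) := fun n => by
  rw [L1.smul_apply', L1.smul_apply', hx n, map_mul, hc]; ring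

theorem natAbs_neg_sub (n k : ℤ) : (-n - -k).natAbs = (n - k).natAbs := by omega

theorem IsH.bil {w : ℤ → ℤ → ℝ} (hw : ∀ n k, ‖((w n k : ℝ) : ℂ)‖ ≤ 1)
    (hs : ∀ n k, w (-n) (-k) = w n k) {x y : L1} (hx : IsH x) (hy : IsH y) :
    IsH (bil (fun n k => ((w n k : ℝ) : ℂ)) hw x y) := fun n => by
  rw [bil_apply, bil_apply, Complex.conj_tsum, ← tsum_mul_left,
    ← (Equiv.neg ℤ).tsum_eq (f := fun k => ((w (-n) k : ℝ) : ℂ) * x k * y (-n - k))]
  refine tsum_congr fun k => ?_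
  show ((w (-n) (-k) : ℝ) : ℂ) * x (-k) * y (-n - -k) = _
  rw [hs, hx k, show -n - -k = -(n - k) by ring, hy (n - k), map_mul, map_mul, Complex.conj_ofReal,
    ← sgn_split n k]
  ring

theorem wm_symm (n k : ℤ) : wm (-n) (-k) = wm n k := by
  unfold wm; rw [Int.natAbs_neg, Int.natAbs_neg, natAbs_neg_sub]

theorem wT_symm (n k : ℤ) : wT (-n) (-k) = wT n k := by
  unfold wT; rw [Int.natAbs_neg, Int.natAbs_neg, wm_symm]

theorem IsH.mulL {x y : L1} (hx : IsH x) (hy : IsH y) : IsH (mulL x y) :=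
  IsH.bil wm_bd wm_symm hx hy

theorem IsH.TL {x y : L1} (hx : IsH x) (hy : IsH y) : IsH (TL x y) :=
  IsH.bil wT_bd wT_symm hx hy

theorem IsH.dg {u v : ℤ → ℂ} {c c' : ℝ} (hu : ∀ n, ‖u n‖ ≤ c) (hv : ∀ n, ‖v n‖ ≤ c')
    (hus : ∀ n, u (-n) = conj (u n)) (hvs : ∀ n, v (-n) = conj (v n))
    {x : L1} (hx : IsH x) : IsH (dg u v hu hv x) := fun n => by
  rw [dg_apply, dg_apply, hus, hvs, map_add, map_mul, map_mul, neg_neg]
  have h1 : conj (x (-n)) = (-1) ^ n * x n := by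
    rw [hx n, map_mul, Complex.conj_conj, sgn_conj]
  rw [h1, hx n]
  have h2 := sgn_mul_self n
  linear_combination (-(conj (v n) * x n)) * h2

theorem conj_half : conj (1 / 2 : ℂ) = 1 / 2 := by
  have : (1 / 2 : ℂ) = ((1 / 2 : ℝ) : ℂ) := by push_cast; rfl
  rw [this, Complex.conj_ofReal]

theorem pc_symm (n : ℤ) : pc (-n) = conj (pc n) := by
  unfold pc
  simp only [dvd_neg]
  split_ifs
  · exact conj_half.symm
  · simp

theorem pc0_symm (n : ℤ) : pc0 (-n) = conj (pc0 n) := by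
  unfold pc0
  simp only [dvd_neg, ne_eq, neg_eq_zero]
  split_ifs
  · exact conj_half.symm
  · simp

theorem IsH.PL {x : L1} (hx : IsH x) : IsH (PL x) := IsH.dg pc_bd pc_bd pc_symm pc_symm hx
theorem IsH.PL0 {x : L1} (hx : IsH x) : IsH (PL0 x) := IsH.dg pc0_bd pc0_bd pc0_symm pc0_symm hx
theorem IsH.Linv {x : L1} (hx : IsH x) : IsH (Linv x) :=
  IsH.dg lc_bd zero_bd (fun n => by unfold lc; simp) (fun _ => by simp) hx
theorem IsH.Dm {x : L1} (hx : IsH x) : IsH (Dm x) :=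
  IsH.dg sgn_bd zero_bd (fun n => by rw [sgn_conj, sgn_neg]) (fun _ => by simp) hx

/-! ### Back to unscaled coordinates -/

/-- Undo the scaling. -/
def un (x : ℤ → ℂ) (n : ℤ) : ℂ := x n / 2 ^ n.natAbs

theorem un_add (x y : L1) (n : ℤ) : un (x + y : L1) n = un x n + un y n := by
  unfold un; rw [L1.add_apply']; ring

theorem un_sub (x y : L1) (n : ℤ) : un (x - y : L1) n = un x n - un y n := by
  unfold un; rw [L1.sub_apply']; ring

theorem un_smul (c : ℂ) (x : L1) (n : ℤ) : un (c • x : L1) n = c * un x n := by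
  unfold un; rw [L1.smul_apply']; ring

theorem un_mulL (x y : L1) (n : ℤ) : un (mulL x y) n = ∑' k, un x k * un y (n - k) := by
  unfold un
  rw [show mulL x y n = ∑' k, ((wm n k : ℝ) : ℂ) * x k * y (n - k) from rfl, ← tsum_div_const]
  refine tsum_congr fun k => ?_
  unfold wm
  have h1 : (2:ℂ) ^ n.natAbs ≠ 0 := pow_ne_zero _ two_ne_zero
  have h2 : (2:ℂ) ^ k.natAbs ≠ 0 := pow_ne_zero _ two_ne_zero
  have h3 : (2:ℂ) ^ (n - k).natAbs ≠ 0 := pow_ne_zero _ two_ne_zero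
  push_cast
  field_simp

theorem un_TL (x y : L1) {n : ℤ} (hn : n ≠ 0) :
    (n.natAbs : ℂ) * un (TL x y) n = ∑' k, (k.natAbs : ℂ) * un x k * un y (n - k) := by
  unfold un
  rw [show TL x y n = ∑' k, ((wT n k : ℝ) : ℂ) * x k * y (n - k) from rfl, ← tsum_div_const,
    ← tsum_mul_left]
  refine tsum_congr fun k => ?_
  unfold wT wm
  have h1 : (2:ℂ) ^ n.natAbs ≠ 0 := pow_ne_zero _ two_ne_zero
  have h2 : (2:ℂ) ^ k.natAbs ≠ 0 := pow_ne_zero _ two_ne_zero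
  have h3 : (2:ℂ) ^ (n - k).natAbs ≠ 0 := pow_ne_zero _ two_ne_zero
  have h4 : (n.natAbs : ℂ) ≠ 0 := by
    have : n.natAbs ≠ 0 := by omega
    exact_mod_cast this
  push_cast
  field_simp

theorem TL_zero (x y : L1) : TL x y 0 = 0 := by
  rw [show TL x y 0 = ∑' k, ((wT 0 k : ℝ) : ℂ) * x k * y (0 - k) from rfl]
  simp [wT]

theorem Linv_zero (x : L1) : Linv x 0 = 0 := by rw [Linv_apply]; simp

theorem PL0_zero (x : L1) : PL0 x 0 = 0 := by rw [PL0_apply]; simp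

theorem un_PL (x : L1) (n : ℤ) :
    un (PL x) n = if (4:ℤ) ∣ n then (un x n + un x (-n)) / 2 else 0 := by
  unfold un
  rw [PL_apply, Int.natAbs_neg]
  split_ifs <;> ring

theorem un_Linv (x : L1) (n : ℤ) : un (Linv x) n = un x n / (n.natAbs : ℂ) := by
  unfold un; rw [Linv_apply]; ring

theorem un_Dm (x : L1) (n : ℤ) : un (Dm x) n = (-1) ^ n * un x n := by
  unfold un; rw [Dm_apply]; ring

theorem summable_un (x : L1) : Summable fun n => 2 ^ n.natAbs * ‖un x n‖ := by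
  refine x.summable_norm.congr fun n => ?_
  unfold un
  rw [norm_div, norm_pow]
  have : (0:ℝ) < 2 ^ n.natAbs := by positivity
  simp only [Complex.norm_ofNat]
  field_simp

theorem tsum_un (x : L1) : ∑' n : ℤ, 2 ^ n.natAbs * ‖un x n‖ = ‖x‖ := by
  rw [L1.norm_eq]
  refine tsum_congr fun n => ?_
  unfold un
  rw [norm_div, norm_pow]
  have : (0:ℝ) < 2 ^ n.natAbs := by positivity
  simp only [Complex.norm_ofNat]
  field_simp

end

end Pool.Agent.FB.Fix
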