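import Pool.Agent.FB.Fix.Contr
import Pool.Agent.FB.Iface

/-!
# From the fixed point to the boundary equations
-/

namespace Pool.Agent.FB.Fix

open Set Filter Topology
open scoped ENNReal ComplexConjugate

noncomputable section

/-- The unnormalised sum `∑ k, |k| x_k y_{n-k}` in unscaled coordinates. -/
def SS (x y : L1) (n : ℤ) : ℂ := ∑' k : ℤ, (k.natAbs : ℂ) * un x k * un y (n - k)

theorem norm_un_le (x : L1) (n : ℤ) : ‖un x n‖ ≤ ‖x n‖ := by
  unfold un
  rw [norm_div, norm_pow, Complex.norm_ofNat]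
  exact div_le_self (norm_nonneg _) (one_le_pow₀ (by norm_num))

theorem norm_abs_un_le (x : L1) (n : ℤ) : ‖(n.natAbs : ℂ) * un x n‖ ≤ ‖x n‖ := by
  unfold un
  rw [norm_mul, norm_div, norm_pow, Complex.norm_ofNat, Complex.norm_natCast]
  have h : (n.natAbs : ℝ) ≤ 2 ^ n.natAbs := by exact_mod_cast (Nat.lt_two_pow_self).le
  have h2 : (0:ℝ) < 2 ^ n.natAbs := by positivity
  rw [mul_div_assoc', div_le_iff₀ h2, mul_comm]
  exact mul_le_mul_of_nonneg_left h (norm_nonneg _)

theorem summable_SS (x y : L1) (n : ℤ) :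
    Summable fun k : ℤ => (k.natAbs : ℂ) * un x k * un y (n - k) := by
  refine Summable.of_norm_bounded (summable_conv x y n) fun k => ?_
  rw [norm_mul]
  exact mul_le_mul (norm_abs_un_le x k) (norm_un_le y _) (norm_nonneg _) (norm_nonneg _)

theorem summable_unun (x y : L1) (n : ℤ) :
    Summable fun k : ℤ => un x k * un y (n - k) := by
  refine Summable.of_norm_bounded (summable_conv x y n) fun k => ?_
  rw [norm_mul]
  exact mul_le_mul (norm_un_le x k) (norm_un_le y _) (norm_nonneg _) (norm_nonneg _)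

theorem SS_sub_left (x x' y : L1) (n : ℤ) : SS (x - x') y n = SS x y n - SS x' y n := by
  unfold SS
  rw [← (summable_SS x y n).tsum_sub (summable_SS x' y n)]
  refine tsum_congr fun k => ?_
  rw [un_sub]; ring

theorem SS_sub_right (x y y' : L1) (n : ℤ) : SS x (y - y') n = SS x y n - SS x y' n := by
  unfold SS
  rw [← (summable_SS x y n).tsum_sub (summable_SS x y' n)]
  refine tsum_congr fun k => ?_
  rw [un_sub]; ring

theorem SS_neg (x y : L1) (n : ℤ) :
    SS x y (-n) = ∑' k : ℤ, (k.natAbs : ℂ) * un x (-k) * un y (-(n - k)) := by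
  unfold SS
  rw [← (Equiv.neg ℤ).tsum_eq (f := fun k : ℤ => (k.natAbs : ℂ) * un x k * un y (-n - k))]
  refine tsum_congr fun k => ?_
  show (((-k).natAbs : ℕ) : ℂ) * un x (-k) * un y (-n - -k) = _
  rw [Int.natAbs_neg, show -n - -k = -(n - k) by ring]

theorem summable_SS_neg (x y : L1) (n : ℤ) :
    Summable fun k : ℤ => (k.natAbs : ℂ) * un x (-k) * un y (-(n - k)) := by
  have h := ((Equiv.neg ℤ).summable_iff
    (f := fun k : ℤ => (k.natAbs : ℂ) * un x k * un y (-n - k))).2 (summable_SS x y (-n))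
  refine h.congr fun k => ?_
  show (((-k).natAbs : ℕ) : ℂ) * un x (-k) * un y (-n - -k) = _
  rw [Int.natAbs_neg, show -n - -k = -(n - k) by ring]

/-- Functions in the range of `PL`. -/
structure InP (g : L1) : Prop where
  supp : ∀ n : ℤ, ¬ (4:ℤ) ∣ n → un g n = 0
  symm : ∀ n : ℤ, un g (-n) = un g n

theorem inP_PL (x : L1) : InP (PL x) where
  supp := fun n hn => by rw [un_PL, if_neg hn]
  symm := fun n => by
    rw [un_PL, un_PL, neg_neg]
    simp only [dvd_neg]
    split_ifs <;> ring

/-- Functions in the kernel of `PL`. -/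
def KerP (x : L1) : Prop := ∀ n : ℤ, (4:ℤ) ∣ n → un x n + un x (-n) = 0

theorem kerP_sub_PL (x : L1) : KerP (x - PL x) := fun n hn => by
  rw [un_sub, un_sub, un_PL, un_PL, if_pos hn, if_pos (by simpa using hn), neg_neg]; ring

theorem SS_left {g x : L1} (hg : InP g) (hx : KerP x) {n : ℤ} (hn : (4:ℤ) ∣ n) :
    SS g x n + SS g x (-n) = 0 := by
  rw [SS_neg]
  unfold SS
  rw [← (summable_SS g x n).tsum_add (summable_SS_neg g x n)]
  rw [← tsum_zero (α := ℂ) (β := ℤ)]
  refine tsum_congr fun k => ?_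
  rw [hg.symm]
  by_cases hk : (4:ℤ) ∣ k
  · have h := hx (n - k) (dvd_sub hn hk)
    linear_combination ((k.natAbs : ℂ) * un g k) * h
  · rw [hg.supp k hk]; ring

theorem SS_right {g x : L1} (hg : InP g) (hx : KerP x) {n : ℤ} (hn : (4:ℤ) ∣ n) :
    SS x g n + SS x g (-n) = 0 := by
  rw [SS_neg]
  unfold SS
  rw [← (summable_SS x g n).tsum_add (summable_SS_neg x g n)]
  rw [← tsum_zero (α := ℂ) (β := ℤ)]
  refine tsum_congr fun k => ?_
  rw [hg.symm]
  by_cases hk : (4:ℤ) ∣ n - k
  · have hk' : (4:ℤ) ∣ k := by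
      have := dvd_sub hn hk
      simpa using this
    have h := hx k hk'
    linear_combination ((k.natAbs : ℂ) * un g (n - k)) * h
  · rw [hg.supp _ hk]; ring

theorem SS_comb (x y : L1) {n : ℤ} (hn : (4:ℤ) ∣ n) :
    (SS (PL x) y n - SS x (PL y) n) + (SS (PL x) y (-n) - SS x (PL y) (-n)) = 0 := by
  have h1 := SS_left (inP_PL x) (kerP_sub_PL y) hn
  have h2 := SS_right (inP_PL y) (kerP_sub_PL x) hn
  rw [SS_sub_right, SS_sub_right] at h1
  rw [SS_sub_left, SS_sub_left] at h2
  linear_combination h1 - h2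

theorem PL_PL (x : L1) : PL (PL x) = PL x := L1.ext' fun n => by
  rw [PL_apply (PL x), PL_apply, PL_apply, neg_neg]
  simp only [dvd_neg]
  split_ifs <;> ring

theorem PL_PL0 (x : L1) : PL (PL0 x) = PL0 x := L1.ext' fun n => by
  rw [PL_apply, PL0_apply, PL0_apply, neg_neg]
  simp only [dvd_neg, ne_eq, neg_eq_zero]
  by_cases h4 : (4:ℤ) ∣ n
  · by_cases h0 : n = 0
    · simp [h0]
    · simp only [h4, h0, not_false_eq_true, and_self, if_true]; ring
  · simp [h4]

theorem natAbs_ne {n : ℤ} (hn : n ≠ 0) : (n.natAbs : ℂ) ≠ 0 := by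
  have : n.natAbs ≠ 0 := by omega
  exact_mod_cast this

theorem un_eq_zero {x : L1} {n : ℤ} (h : un x n = 0) : x n = 0 := by
  unfold un at h
  rcases div_eq_zero_iff.1 h with h | h
  · exact h
  · exact absurd h (pow_ne_zero _ two_ne_zero)

namespace Dat

variable {D : Dat}

theorem un_N (D : Dat) (b : L1) {n : ℤ} (hn : n ≠ 0) :
    (n.natAbs : ℂ) * un (D.N b) n = D.β b * (un (D.φ b) n - un (PL (D.φ b)) n) +
      (SS (PL (D.d b)) (D.φ b) n - SS (D.d b) (PL (D.φ b)) n) := by
  unfold Dat.N
  rw [un_add, un_smul, un_Linv, un_sub, un_sub, mul_add, mul_sub, un_TL _ _ hn, un_TL _ _ hn]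
  unfold SS
  have := natAbs_ne hn
  field_simp

theorem N_zero (D : Dat) (b : L1) : D.N b 0 = 0 := by
  unfold Dat.N
  rw [L1.add_apply', L1.smul_apply', L1.sub_apply', Linv_zero, TL_zero, TL_zero]; ring

theorem PL_N (D : Dat) (b : L1) : PL (D.N b) = 0 := L1.ext' fun n => by
  have h0 : un (PL (D.N b)) n = 0 := by
    rw [un_PL]
    split_ifs with hn
    · rcases eq_or_ne n 0 with rfl | hn0
      · unfold un; simp [D.N_zero b]
      · have h1 := D.un_N b hn0
        have h2 := D.un_N b (neg_ne_zero.2 hn0)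
        rw [Int.natAbs_neg] at h2
        have h3 := SS_comb (D.d b) (D.φ b) hn
        have h4 : un (D.φ b) n - un (PL (D.φ b)) n +
            (un (D.φ b) (-n) - un (PL (D.φ b)) (-n)) = 0 := by
          have := kerP_sub_PL (D.φ b) n hn
          rwa [un_sub, un_sub] at this
        have h5 : (n.natAbs : ℂ) * (un (D.N b) n + un (D.N b) (-n)) = 0 := by
          linear_combination h1 + h2 + h3 + D.β b * h4
        rcases mul_eq_zero.1 h5 with h | h
        · exact absurd h (natAbs_ne hn0)
        · rw [h]; simp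
    · rfl
  rw [un_eq_zero h0]; rfl

/-- The projected part of the fixed point equation. -/
theorem PL_φ {b : L1} (hb : D.Psi b = b) : PL (D.φ b) = -D.Q b := by
  have h1 : PL (D.Psi b) = PL b := by rw [hb]
  have h2 : PL (D.Q b) = D.Q b := by
    unfold Dat.Q
    rw [map_smul, PL_PL0]
  unfold Dat.Psi at h1
  rw [map_sub, map_sub, map_sub, map_smul, PL_PL, D.PL_N b, h2] at h1
  unfold Dat.φ
  rw [map_add, ← h1]
  module

/-- The complementary part of the fixed point equation. -/
theorem d_eq {b : L1} (hb : D.Psi b = b) : D.d b - PL (D.d b) = D.N b := by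
  have h1 := PL_φ hb
  unfold Dat.φ at h1
  rw [map_add] at h1
  have h2 := hb
  unfold Dat.Psi at h2
  unfold Dat.d
  rw [map_sub]
  have h3 : D.Q b = -(PL (D.a b) + PL b) := by rw [h1]; abel
  rw [h3] at h2
  calc D.a b - b - (PL (D.a b) - PL b)
      = D.a b - (D.a b - (2 : ℂ) • PL (D.a b) - D.N b - -(PL (D.a b) + PL b)) -
        (PL (D.a b) - PL b) := by rw [h2]
    _ = D.N b := by module

theorem fixed_zero {b : L1} (hb : D.Psi b = b) (ha : D.a b 0 = 0) : b 0 = 0 := by
  have h : D.Psi b 0 = b 0 := by rw [hb]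
  rw [← h]
  unfold Dat.Psi Dat.Q
  rw [L1.sub_apply', L1.sub_apply', L1.sub_apply', L1.smul_apply', L1.smul_apply', D.N_zero,
    PL0_zero, PL_apply]
  simp [ha]

end Dat

/-! ### Convolutions with a constant term -/

theorem conv_delta {x y : ℤ → ℂ} (c c' : ℂ) (n : ℤ) (h : Summable fun k => x k * y (n - k)) :
    FB.conv (fun k => (if k = 0 then c else 0) + x k) (fun k => (if k = 0 then c' else 0) + y k) n =
      (if n = 0 then c * c' else 0) + c * y n + c' * x n + FB.conv x y n := by
  unfold FB.conv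
  have h1 : HasSum (fun k : ℤ => (if k = 0 then c else 0) * (if n - k = 0 then c' else 0))
      (if n = 0 then c * c' else 0) := by
    have := hasSum_single (f := fun k : ℤ => (if k = 0 then c else 0) *
      (if n - k = 0 then c' else 0)) 0 (fun k hk => by rw [if_neg hk, zero_mul])
    convert this using 1
    simp
  have h2 : HasSum (fun k : ℤ => (if k = 0 then c else 0) * y (n - k)) (c * y n) := by
    have := hasSum_single (f := fun k : ℤ => (if k = 0 then c else 0) * y (n - k)) 0
      (fun k hk => by rw [if_neg hk, zero_mul])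
    simpa using this
  have h3 : HasSum (fun k : ℤ => x k * (if n - k = 0 then c' else 0)) (c' * x n) := by
    have := hasSum_single (f := fun k : ℤ => x k * (if n - k = 0 then c' else 0)) n
      (fun k hk => by rw [if_neg (fun h => hk (by omega)), mul_zero])
    simpa [mul_comm] using this
  have h4 := ((h1.add h2).add h3).add h.hasSum
  rw [← h4.tsum_eq]
  refine tsum_congr fun k => ?_
  ring

end

end Pool.Agent.FB.Fix
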